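import Mathlib
/-! Positivity in matrix algebras over C*-algebras, Schwarz inequality, multiplicative domains and
complete contractivity of unital completely positive maps. -/

open scoped CStarAlgebra ComplexOrder InnerProductSpace

namespace Pool.Agent.NormEnv

section rep

variable {H : Type*} [NormedAddCommGroup H] [InnerProductSpace ℂ H] [CompleteSpace H]
  {n : Type*} [Fintype n]

/-- The operator on `H^n` defined by a matrix of operators. -/
noncomputable def opFun (P : CStarMatrix n n (H →L[ℂ] H)) :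
    PiLp 2 (fun _ : n => H) →L[ℂ] PiLp 2 (fun _ : n => H) :=
  ((PiLp.continuousLinearEquiv 2 ℂ (fun _ : n => H)).symm : (n → H) →L[ℂ] PiLp 2 (fun _ : n => H)) ∘L
    (ContinuousLinearMap.pi fun i => ∑ j, (P i j) ∘L (ContinuousLinearMap.proj j)) ∘L
    (PiLp.continuousLinearEquiv 2 ℂ (fun _ : n => H) : PiLp 2 (fun _ : n => H) →L[ℂ] (n → H))

lemma opFun_apply (P : CStarMatrix n n (H →L[ℂ] H)) (ζ : PiLp 2 (fun _ : n => H)) (i : n) :
    opFun P ζ i = ∑ j, P i j (ζ j) := by
  simp [opFun]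

variable [DecidableEq n]

variable (H n) in
/-- `opFun` as a star homomorphism. -/
noncomputable def opHom :
    CStarMatrix n n (H →L[ℂ] H) →⋆ₐ[ℂ]
      (PiLp 2 (fun _ : n => H) →L[ℂ] PiLp 2 (fun _ : n => H)) where
  toFun := opFun
  map_one' := by
    ext ζ i
    rw [opFun_apply, Finset.sum_eq_single i]
    · simp
    · intro j _ hj
      rw [CStarMatrix.one_apply_ne (Ne.symm hj)]; simp
    · simp
  map_mul' P Q := by
    ext ζ i
    rw [mul_apply_eq_comp, opFun_apply, opFun_apply]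
    have h1 : ∀ j, (P * Q) i j (ζ j) = ∑ k, P i k (Q k j (ζ j)) := by
      intro j
      rw [CStarMatrix.mul_apply]
      simp
    simp only [h1, opFun_apply, map_sum]
    rw [Finset.sum_comm]
  map_zero' := by
    ext ζ i
    simp [opFun_apply]
  map_add' P Q := by
    ext ζ i
    simp [opFun_apply, Finset.sum_add_distrib]
  commutes' r := by
    ext ζ i
    rw [opFun_apply, Finset.sum_eq_single i]
    · simp [CStarMatrix.algebraMap_apply, Algebra.algebraMap_eq_smul_one]
    · intro j _ hj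
      simp [CStarMatrix.algebraMap_apply, Ne.symm hj]
    · simp
  map_star' P := by
    rw [ContinuousLinearMap.star_eq_adjoint, ContinuousLinearMap.eq_adjoint_iff]
    intro x y
    simp only [PiLp.inner_apply, opFun_apply, sum_inner, inner_sum, CStarMatrix.star_apply,
      ContinuousLinearMap.star_eq_adjoint, ContinuousLinearMap.adjoint_inner_left]
    rw [Finset.sum_comm]

lemma opHom_apply (P : CStarMatrix n n (H →L[ℂ] H)) (ζ : PiLp 2 (fun _ : n => H)) (i : n) :
    opHom H n P ζ i = ∑ j, P i j (ζ j) := opFun_apply P ζ i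

lemma opHom_injective :
    Function.Injective (opHom H n : CStarMatrix n n (H →L[ℂ] H) →
      (PiLp 2 (fun _ : n => H) →L[ℂ] PiLp 2 (fun _ : n => H))) := by
  intro P Q h
  ext i j x
  have h1 := congrArg (fun T : PiLp 2 (fun _ : n => H) →L[ℂ] PiLp 2 (fun _ : n => H) =>
    T (PiLp.single 2 j x) i) h
  simp only [opHom_apply] at h1
  rw [Finset.sum_eq_single j, Finset.sum_eq_single j] at h1
  · simpa using h1
  · intro k _ hk
    simp [hk]
  · simp
  · intro k _ hk
    simp [hk]
  · simp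

end rep

section general

variable {B C : Type*} [CStarAlgebra B] [PartialOrder B] [StarOrderedRing B]
  [CStarAlgebra C] [PartialOrder C] [StarOrderedRing C]

/-- An injective star homomorphism reflects positivity. -/
lemma nonneg_of_map_nonneg (φ : B →⋆ₐ[ℂ] C) (hφ : Function.Injective φ) {b : B}
    (hb : 0 ≤ φ b) : 0 ≤ b := by
  have hsa : IsSelfAdjoint b := by
    have h1 : IsSelfAdjoint (φ b) := IsSelfAdjoint.of_nonneg hb
    apply hφ
    rw [map_star]
    exact h1
  rw [StarOrderedRing.nonneg_iff_spectrum_nonneg (R := ℝ) b hsa]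
  rw [StarOrderedRing.nonneg_iff_spectrum_nonneg (R := ℝ) (φ b) (IsSelfAdjoint.of_nonneg hb),
    hsa.map_spectrum_real φ hφ] at hb
  exact hb

variable {n : Type*} [Fintype n] [DecidableEq n]

/-- Entrywise application of a unital star homomorphism. -/
noncomputable def mapHom (φ : B →⋆ₐ[ℂ] C) : CStarMatrix n n B →⋆ₐ[ℂ] CStarMatrix n n C where
  toFun M := M.map φ
  map_one' := by
    ext i j
    by_cases h : i = j
    · subst h; simp
    · simp [CStarMatrix.one_apply_ne h]
  map_mul' P Q := by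
    ext i j
    simp [CStarMatrix.mul_apply, map_sum]
  map_zero' := by ext; simp
  map_add' P Q := by ext; simp
  commutes' r := by
    ext i j
    by_cases h : i = j
    · subst h; simp [CStarMatrix.algebraMap_apply, Algebra.algebraMap_eq_smul_one]
    · simp [CStarMatrix.algebraMap_apply, h]
  map_star' P := by
    ext i j
    simp [CStarMatrix.star_apply, map_star]

lemma mapHom_apply (φ : B →⋆ₐ[ℂ] C) (M : CStarMatrix n n B) (i j : n) :
    mapHom φ M i j = φ (M i j) := rfl

lemma mapHom_injective (φ : B →⋆ₐ[ℂ] C) (hφ : Function.Injective φ) :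
    Function.Injective (mapHom φ : CStarMatrix n n B → CStarMatrix n n C) := by
  intro P Q h
  ext i j
  apply hφ
  have := congrArg (fun M : CStarMatrix n n C => M i j) h
  simpa [mapHom_apply] using this

end general

section pos

variable {H : Type*} [NormedAddCommGroup H] [InnerProductSpace ℂ H] [CompleteSpace H]
  {B : Type*} [CStarAlgebra B] [PartialOrder B] [StarOrderedRing B]
  {n : Type*} [Fintype n] [DecidableEq n]

lemma inner_opHom (P : CStarMatrix n n (H →L[ℂ] H)) (ζ η : PiLp 2 (fun _ : n => H)) :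
    ⟪η, opHom H n P ζ⟫_ℂ = ∑ i, ∑ j, ⟪η i, P i j (ζ j)⟫_ℂ := by
  simp only [PiLp.inner_apply, opHom_apply, inner_sum]

/-- Positivity of a matrix of operators can be tested on vectors. -/
theorem nonneg_of_forall_inner (P : CStarMatrix n n (H →L[ℂ] H))
    (hP : ∀ ζ : n → H, 0 ≤ ∑ i, ∑ j, ⟪ζ i, P i j (ζ j)⟫_ℂ) : 0 ≤ P := by
  apply nonneg_of_map_nonneg (opHom H n) opHom_injective
  rw [ContinuousLinearMap.nonneg_iff_isPositive, ContinuousLinearMap.isPositive_iff_complex]
  intro ζ
  have h := hP (fun i => ζ i)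
  rw [← inner_opHom P ζ ζ] at h
  obtain ⟨h1, h2⟩ := Complex.nonneg_iff.mp h
  have e : ⟪opHom H n P ζ, ζ⟫_ℂ = ⟪ζ, opHom H n P ζ⟫_ℂ := by
    rw [← inner_conj_symm]
    exact Complex.conj_eq_iff_im.mpr h2.symm
  rw [e]
  refine ⟨?_, h1⟩
  apply Complex.ext
  · simp
  · simpa using h2

/-- A positive matrix of operators has a nonnegative quadratic form. -/
theorem inner_nonneg_of_nonneg (P : CStarMatrix n n (H →L[ℂ] H)) (hP : 0 ≤ P) (ζ : n → H) :
    0 ≤ ∑ i, ∑ j, ⟪ζ i, P i j (ζ j)⟫_ℂ := by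
  have h1 : 0 ≤ opHom H n P := map_nonneg (opHom H n) hP
  rw [ContinuousLinearMap.nonneg_iff_isPositive] at h1
  have h2 := h1.inner_nonneg_right (WithLp.toLp 2 ζ)
  rw [inner_opHom] at h2
  exact h2

/-- A positive matrix over `B` gives positive elements. -/
theorem conj_nonneg (P : CStarMatrix n n B) (hP : 0 ≤ P) (v : n → B) :
    0 ≤ ∑ i, ∑ j, star (v i) * P i j * v j := by
  rw [StarOrderedRing.nonneg_iff] at hP
  induction hP using AddSubmonoid.closure_induction with
  | zero => simp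
  | add x y _ _ hx hy =>
    have e : ∑ i, ∑ j, star (v i) * (x + y) i j * v j =
        (∑ i, ∑ j, star (v i) * x i j * v j) + ∑ i, ∑ j, star (v i) * y i j * v j := by
      simp only [CStarMatrix.add_apply, mul_add, add_mul, Finset.sum_add_distrib]
    rw [e]
    exact add_nonneg hx hy
  | mem x hx =>
  obtain ⟨N, rfl⟩ := hx
  show 0 ≤ ∑ i, ∑ j, star (v i) * (star N * N) i j * v j
  have h : ∑ i, ∑ j, star (v i) * (star N * N) i j * v j =
      ∑ k, star (∑ j, N k j * v j) * (∑ j, N k j * v j) := by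
    simp only [CStarMatrix.mul_apply, CStarMatrix.star_apply, Finset.mul_sum, Finset.sum_mul,
      star_sum, star_mul, mul_assoc]
    have h1 : ∀ i, ∑ j, ∑ k, star (v i) * (star (N k i) * (N k j * v j)) =
        ∑ k, ∑ j, star (v i) * (star (N k i) * (N k j * v j)) := fun i => Finset.sum_comm
    simp only [h1]
    rw [Finset.sum_comm]
    refine Finset.sum_congr rfl fun k _ => ?_
    rw [Finset.sum_comm]
  rw [h]
  exact Finset.sum_nonneg fun k _ => star_mul_self_nonneg _

end pos

section schwarz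

variable {B C : Type*} [CStarAlgebra B] [PartialOrder B] [StarOrderedRing B]
  [CStarAlgebra C] [PartialOrder C] [StarOrderedRing C]

lemma cp_star (θ : B →CP C) (b : B) : θ (star b) = star (θ b) := map_star θ b

/-- Kadison-Schwarz inequality for unital completely positive maps. -/
theorem schwarz (θ : B →CP C) (h1 : θ 1 = 1) (b : B) :
    star (θ b) * θ b ≤ θ (star b * b) := by
  let N : CStarMatrix (Fin 2) (Fin 2) B := CStarMatrix.ofMatrix !![1, b; 0, 0]
  have hN : (0 : CStarMatrix (Fin 2) (Fin 2) B) ≤ star N * N := star_mul_self_nonneg N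
  have h2 := θ.map_cstarMatrix_nonneg (star N * N) hN
  have h3 := conj_nonneg _ h2 ![-θ b, 1]
  have e00 : (star N * N) 0 0 = 1 := by
    simp [CStarMatrix.mul_apply, CStarMatrix.star_apply, N]
  have e01 : (star N * N) 0 1 = b := by
    simp [CStarMatrix.mul_apply, CStarMatrix.star_apply, N]
  have e10 : (star N * N) 1 0 = star b := by
    simp [CStarMatrix.mul_apply, CStarMatrix.star_apply, N]
  have e11 : (star N * N) 1 1 = star b * b := by
    simp [CStarMatrix.mul_apply, CStarMatrix.star_apply, N]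
  simp only [Fin.sum_univ_two, CStarMatrix.map_apply, e00, e01, e10, e11, h1, cp_star,
    Matrix.cons_val_zero, Matrix.cons_val_one, star_neg, star_one] at h3
  have h4 : -star (θ b) * 1 * -θ b + -star (θ b) * θ b * 1 + (1 * star (θ b) * -θ b +
      1 * θ (star b * b) * 1) = θ (star b * b) - star (θ b) * θ b := by
    noncomm_ring
  rw [h4] at h3
  exact sub_nonneg.mp h3

lemma nonneg_of_forall_add {d x : C} (h : ∀ n : ℕ, 0 ≤ d + ((n : ℝ) + 1) • x) : 0 ≤ x := by
  have h1 : ∀ n : ℕ, 0 ≤ (1 / ((n : ℝ) + 1)) • d + x := by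
    intro n
    have hn : (0 : ℝ) ≤ 1 / ((n : ℝ) + 1) := by positivity
    have h2 := smul_nonneg hn (h n)
    have h3 : (1 / ((n : ℝ) + 1)) • (d + ((n : ℝ) + 1) • x) = (1 / ((n : ℝ) + 1)) • d + x := by
      rw [smul_add, smul_smul]
      have : (1 / ((n : ℝ) + 1)) * ((n : ℝ) + 1) = 1 := by
        have : (n : ℝ) + 1 ≠ 0 := by positivity
        field_simp
      rw [this, one_smul]
    rwa [h3] at h2
  have h4 : Filter.Tendsto (fun n : ℕ => (1 / ((n : ℝ) + 1)) • d + x) Filter.atTop
      (nhds ((0 : ℝ) • d + x)) :=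
    (tendsto_one_div_add_atTop_nhds_zero_nat.smul_const d).add_const x
  rw [zero_smul, zero_add] at h4
  exact ge_of_tendsto' h4 h1

lemma eq_zero_of_forall_nonneg {d e : C} (h : ∀ t : ℂ, 0 ≤ d + (t • e + star (t • e))) :
    e = 0 := by
  have h1 : ∀ t : ℂ, 0 ≤ t • e + star (t • e) := by
    intro t
    apply nonneg_of_forall_add (d := d)
    intro n
    have h2 := h (((n : ℝ) + 1 : ℝ) * t)
    have h3 : ((((n : ℝ) + 1 : ℝ) : ℂ) * t) • e + star (((((n : ℝ) + 1 : ℝ) : ℂ) * t) • e) =
        ((n : ℝ) + 1) • (t • e + star (t • e)) := by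
      rw [mul_smul, smul_add, star_smul, ← Complex.coe_smul, ← Complex.coe_smul]
      simp
    rwa [h3] at h2
  have h2 : ∀ t : ℂ, t • e + star (t • e) = 0 := by
    intro t
    apply le_antisymm _ (h1 t)
    have h3 := h1 (-t)
    have h4 : (-t) • e + star ((-t) • e) = -(t • e + star (t • e)) := by
      simp only [neg_smul, star_neg]; abel
    rw [h4] at h3
    exact neg_nonneg.mp h3
  have h3 := h2 1
  have h4 := h2 Complex.I
  rw [one_smul] at h3
  rw [star_smul, Complex.star_def, Complex.conj_I, neg_smul, ← sub_eq_add_neg, ← smul_sub] at h4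
  have h5 : e - star e = 0 := by
    rcases smul_eq_zero.mp h4 with h | h
    · exact absurd h Complex.I_ne_zero
    · exact h
  have h6 : (2 : ℂ) • e = 0 := by
    rw [two_smul]
    calc e + e = (e + star e) + (e - star e) := by abel
      _ = 0 := by rw [h3, h5, add_zero]
  rcases smul_eq_zero.mp h6 with h | h
  · exact absurd h two_ne_zero
  · exact h

/-- Multiplicative domain: right multiplication. -/
theorem map_mul_of_eq (θ : B →CP C) (h1 : θ 1 = 1) {y : B}
    (hy : θ (star y * y) = star (θ y) * θ y) (z : B) : θ (z * y) = θ z * θ y := by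
  have hD : ∀ u : B, 0 ≤ θ (star u * u) - star (θ u) * θ u := fun u =>
    sub_nonneg.mpr (schwarz θ h1 u)
  have key : θ (z * y) - θ z * θ y = 0 := by
    apply eq_zero_of_forall_nonneg (d := θ (z * star z) - θ z * star (θ z))
    intro t
    have h2 := hD (star z + t • y)
    have h3 : θ (star (star z + t • y) * (star z + t • y)) -
        star (θ (star z + t • y)) * θ (star z + t • y) =
        θ (z * star z) - θ z * star (θ z) +
          (t • (θ (z * y) - θ z * θ y) + star (t • (θ (z * y) - θ z * θ y))) +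
          (star t * t) • (θ (star y * y) - star (θ y) * θ y) := by
      have e1 : star (star z + t • y) * (star z + t • y) =
          z * star z + t • (z * y) + (star t) • star (z * y) + (star t * t) • (star y * y) := by
        simp only [star_add, star_star, star_smul, star_mul, add_mul, mul_add, smul_mul_assoc,
          mul_smul_comm, smul_smul, smul_add]
        rw [mul_comm (star t) t]
        abel
      have e2 : star (θ (z * y)) = θ (star (z * y)) := (cp_star θ _).symm
      rw [e1]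
      simp only [map_add, map_smul, cp_star θ z, star_add, star_star, star_smul, star_sub,
        e2, star_mul,
        add_mul, mul_add, smul_mul_assoc, mul_smul_comm, smul_sub, smul_smul, smul_add]
      rw [mul_comm t (star t)]
      abel
    rw [h3, hy, sub_self, smul_zero, add_zero] at h2
    exact h2
  exact sub_eq_zero.mp key

/-- Multiplicative domain: left multiplication. -/
theorem map_mul_of_eq' (θ : B →CP C) (h1 : θ 1 = 1) {y : B}
    (hy : θ (y * star y) = θ y * star (θ y)) (z : B) : θ (y * z) = θ y * θ z := by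
  have h2 : θ (star (star y) * star y) = star (θ (star y)) * θ (star y) := by
    rw [star_star, cp_star, star_star, hy]
  have h3 := map_mul_of_eq θ h1 h2 (star z)
  have h4 := congrArg star h3
  rw [← cp_star, star_mul, star_star, star_star, star_mul, cp_star, cp_star, star_star,
    star_star] at h4
  exact h4

end schwarz

section bound

variable {H : Type*} [NormedAddCommGroup H] [InnerProductSpace ℂ H]
  {H' : Type*} [NormedAddCommGroup H'] [InnerProductSpace ℂ H']
  {n : Type*} [Fintype n]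

/-- The matrix of operators `m` is bounded by `c` as an operator on `H^n`. -/
def MB (m : n → n → (H →L[ℂ] H)) (c : ℝ) : Prop :=
  ∀ ξ η : n → H, ‖∑ i, ∑ j, ⟪η i, m i j (ξ j)⟫_ℂ‖ ≤
    c * √(∑ j, ‖ξ j‖ ^ 2) * √(∑ i, ‖η i‖ ^ 2)

lemma bound_of_forall_nonneg {S : ℂ} {c x y : ℝ} (hx : 0 < x) (hy : 0 < y)
    (h : ∀ (s : ℝ) (u : ℂ), 0 < s → ‖u‖ = 1 →
      0 ≤ c * (s ^ 2 * x ^ 2) + c * (s⁻¹ ^ 2 * y ^ 2) + 2 * (u * S).re) :
    ‖S‖ ≤ c * y * x := by
  obtain ⟨u, hu, huS⟩ : ∃ u : ℂ, ‖u‖ = 1 ∧ (u * S).re = -‖S‖ := by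
    by_cases hS : S = 0
    · exact ⟨1, by simp, by simp [hS]⟩
    · have hS' : (‖S‖ : ℂ) ≠ 0 := by
        exact_mod_cast norm_ne_zero_iff.mpr hS
      refine ⟨-(star S) / ‖S‖, ?_, ?_⟩
      · rw [norm_div, norm_neg, norm_star, Complex.norm_real, norm_norm]
        exact div_self (norm_ne_zero_iff.mpr hS)
      · have h1 : -(star S) / ‖S‖ * S = ((-‖S‖ : ℝ) : ℂ) := by
          have h2 : star S * S = (‖S‖ : ℂ) ^ 2 := by
            rw [Complex.star_def, Complex.conj_mul']
          have h3 : -(star S) / ‖S‖ * S = -(star S * S) / ‖S‖ := by ring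
          rw [h3, h2]
          field_simp
          push_cast
          rfl
        rw [h1, Complex.ofReal_re]
  have hs : 0 < √(y / x) := Real.sqrt_pos.mpr (div_pos hy hx)
  have h1 := h (√(y / x)) u hs hu
  rw [huS, inv_pow, Real.sq_sqrt (div_pos hy hx).le] at h1
  have h2 : y / x * x ^ 2 = y * x := by field_simp
  have h3 : (y / x)⁻¹ * y ^ 2 = y * x := by field_simp
  rw [h2, h3] at h1
  nlinarith [h1]

end bound

section bound2

variable {H : Type*} [NormedAddCommGroup H] [InnerProductSpace ℂ H] [CompleteSpace H]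
  {H' : Type*} [NormedAddCommGroup H'] [InnerProductSpace ℂ H'] [CompleteSpace H']
  {B C : Type*} [CStarAlgebra B] [PartialOrder B] [StarOrderedRing B]
  [CStarAlgebra C] [PartialOrder C] [StarOrderedRing C]
  {n : Type*} [Fintype n] [DecidableEq n]

/-- The block matrix `[c, m; m*, c]`. -/
noncomputable def blk (m : n → n → B) (c : ℝ) : CStarMatrix (n ⊕ n) (n ⊕ n) B :=
  CStarMatrix.ofMatrix (Matrix.fromBlocks (Matrix.of fun i j => if i = j then (c : ℂ) • (1 : B) else 0)
    (Matrix.of m) (Matrix.of fun i j => star (m j i))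
    (Matrix.of fun i j => if i = j then (c : ℂ) • (1 : B) else 0))

lemma sum_blk (T : (n ⊕ n) → (n ⊕ n) → (H →L[ℂ] H)) (m : n → n → (H →L[ℂ] H)) (c : ℝ)
    (h11 : ∀ i j, T (Sum.inl i) (Sum.inl j) = if i = j then (c : ℂ) • (1 : H →L[ℂ] H) else 0)
    (h12 : ∀ i j, T (Sum.inl i) (Sum.inr j) = m i j)
    (h21 : ∀ i j, T (Sum.inr i) (Sum.inl j) = star (m j i))
    (h22 : ∀ i j, T (Sum.inr i) (Sum.inr j) = if i = j then (c : ℂ) • (1 : H →L[ℂ] H) else 0)
    (ζ : n ⊕ n → H) :
    ∑ i, ∑ j, ⟪ζ i, T i j (ζ j)⟫_ℂ =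
      ((c * (∑ i, ‖ζ (Sum.inl i)‖ ^ 2) + c * (∑ i, ‖ζ (Sum.inr i)‖ ^ 2) +
        2 * (∑ i, ∑ j, ⟪ζ (Sum.inl i), m i j (ζ (Sum.inr j))⟫_ℂ).re : ℝ) : ℂ) := by
  simp only [Fintype.sum_sum_type, h11, h12, h21, h22]
  have e1 : ∀ i (x : n → H), ∑ j, ⟪x i, (if i = j then (c : ℂ) • (1 : H →L[ℂ] H) else 0) (x j)⟫_ℂ =
      ((c * ‖x i‖ ^ 2 : ℝ) : ℂ) := by
    intro i x
    rw [Finset.sum_eq_single i]
    · simp only [if_true]
      rw [smul_apply, one_apply_eq_self, inner_smul_right, inner_self_eq_norm_sq_to_K]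
      push_cast
      rfl
    · intro j _ hj
      rw [if_neg (Ne.symm hj)]
      simp
    · simp
  have e2 : ∑ i, ∑ j, ⟪ζ (Sum.inr i), (star (m j i)) (ζ (Sum.inl j))⟫_ℂ =
      star (∑ i, ∑ j, ⟪ζ (Sum.inl i), m i j (ζ (Sum.inr j))⟫_ℂ) := by
    rw [star_sum]
    simp only [star_sum]
    rw [Finset.sum_comm]
    refine Finset.sum_congr rfl fun i _ => Finset.sum_congr rfl fun j _ => ?_
    rw [ContinuousLinearMap.star_eq_adjoint, ContinuousLinearMap.adjoint_inner_right]
    exact (inner_conj_symm _ _).symm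
  simp only [Finset.sum_add_distrib]
  rw [e2]
  have e3 : ∑ i, ∑ j, ⟪ζ (Sum.inl i), (if i = j then (c : ℂ) • (1 : H →L[ℂ] H) else 0) (ζ (Sum.inl j))⟫_ℂ
      = ((c * (∑ i, ‖ζ (Sum.inl i)‖ ^ 2) : ℝ) : ℂ) := by
    rw [Finset.mul_sum, Complex.ofReal_sum]
    exact Finset.sum_congr rfl fun i _ => e1 i (fun i => ζ (Sum.inl i))
  have e4 : ∑ i, ∑ j, ⟪ζ (Sum.inr i), (if i = j then (c : ℂ) • (1 : H →L[ℂ] H) else 0) (ζ (Sum.inr j))⟫_ℂ
      = ((c * (∑ i, ‖ζ (Sum.inr i)‖ ^ 2) : ℝ) : ℂ) := by
    rw [Finset.mul_sum, Complex.ofReal_sum]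
    exact Finset.sum_congr rfl fun i _ => e1 i (fun i => ζ (Sum.inr i))
  rw [e3, e4]
  set S := ∑ i, ∑ j, ⟪ζ (Sum.inl i), m i j (ζ (Sum.inr j))⟫_ℂ
  apply Complex.ext
  · simp; ring
  · simp

/-- Unital completely positive maps are completely contractive. -/
theorem matrix_bound (θ : B →CP C) (h1 : θ 1 = 1)
    (πB : B →⋆ₐ[ℂ] (H →L[ℂ] H)) (hπB : Function.Injective πB)
    (πC : C →⋆ₐ[ℂ] (H' →L[ℂ] H')) (m : n → n → B) {c : ℝ} (hc : 0 ≤ c)
    (hm : MB (fun i j => πB (m i j)) c) : MB (fun i j => πC (θ (m i j))) c := by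
  have hP : 0 ≤ blk m c := by
    apply nonneg_of_map_nonneg (mapHom πB) (mapHom_injective πB hπB)
    apply nonneg_of_forall_inner
    intro ζ
    rw [sum_blk (H := H) (fun i j => mapHom πB (blk m c) i j) (fun i j => πB (m i j)) c]
    · rw [Complex.zero_le_real]
      set a := ∑ i, ‖ζ (Sum.inl i)‖ ^ 2
      set b := ∑ i, ‖ζ (Sum.inr i)‖ ^ 2
      have ha : 0 ≤ a := Finset.sum_nonneg fun i _ => by positivity
      have hb : 0 ≤ b := Finset.sum_nonneg fun i _ => by positivity
      have h2 := hm (fun j => ζ (Sum.inr j)) (fun i => ζ (Sum.inl i))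
      have h3 := (abs_le.mp ((Complex.abs_re_le_norm _).trans h2)).1
      have h4 : √b ^ 2 = b := Real.sq_sqrt hb
      have h5 : √a ^ 2 = a := Real.sq_sqrt ha
      nlinarith [mul_nonneg hc (sq_nonneg (√a - √b)), h3]
    · intro i j
      show πB (if i = j then (c : ℂ) • (1 : B) else 0) = _
      split_ifs
      · rw [map_smul, map_one]
      · exact map_zero πB
    · intro i j
      rw [mapHom_apply]; simp [blk]
    · intro i j
      rw [mapHom_apply]; simp [blk, map_star]
    · intro i j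
      show πB (if i = j then (c : ℂ) • (1 : B) else 0) = _
      split_ifs
      · rw [map_smul, map_one]
      · exact map_zero πB
  have hQ : 0 ≤ mapHom πC ((blk m c).map θ) :=
    map_nonneg (mapHom πC) (θ.map_cstarMatrix_nonneg _ hP)
  intro ξ η
  by_cases hξ : ∑ j, ‖ξ j‖ ^ 2 = 0
  · have h2 : ∀ j, ξ j = 0 := by
      intro j
      have := (Finset.sum_eq_zero_iff_of_nonneg (fun i _ => by positivity)).mp hξ j
        (Finset.mem_univ j)
      exact norm_eq_zero.mp (pow_eq_zero_iff (two_ne_zero) |>.mp this)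
    simp [h2]
  by_cases hη : ∑ j, ‖η j‖ ^ 2 = 0
  · have h2 : ∀ j, η j = 0 := by
      intro j
      have := (Finset.sum_eq_zero_iff_of_nonneg (fun i _ => by positivity)).mp hη j
        (Finset.mem_univ j)
      exact norm_eq_zero.mp (pow_eq_zero_iff (two_ne_zero) |>.mp this)
    simp [h2]
  have hξ0 : 0 ≤ ∑ j, ‖ξ j‖ ^ 2 := Finset.sum_nonneg fun i _ => by positivity
  have hη0 : 0 ≤ ∑ j, ‖η j‖ ^ 2 := Finset.sum_nonneg fun i _ => by positivity
  have hξ' : 0 < √(∑ j, ‖ξ j‖ ^ 2) := Real.sqrt_pos.mpr (lt_of_le_of_ne hξ0 (Ne.symm hξ))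
  have hη' : 0 < √(∑ j, ‖η j‖ ^ 2) := Real.sqrt_pos.mpr (lt_of_le_of_ne hη0 (Ne.symm hη))
  apply bound_of_forall_nonneg hη' hξ'
  intro s u hs hu
  have h2 := inner_nonneg_of_nonneg _ hQ
    (Sum.elim (fun i => (s : ℂ) • η i) (fun j => (((s⁻¹ : ℝ) : ℂ) * u) • ξ j))
  rw [sum_blk (H := H') (fun i j => mapHom πC ((blk m c).map θ) i j)
    (fun i j => πC (θ (m i j))) c] at h2
  · rw [Complex.zero_le_real] at h2
    simp only [Sum.elim_inl, Sum.elim_inr] at h2
    have e1 : ∑ i, ‖(s : ℂ) • η i‖ ^ 2 = s ^ 2 * √(∑ j, ‖η j‖ ^ 2) ^ 2 := by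
      rw [Real.sq_sqrt hη0, Finset.mul_sum]
      refine Finset.sum_congr rfl fun i _ => ?_
      rw [norm_smul, mul_pow, Complex.norm_real, Real.norm_eq_abs, sq_abs]
    have e2 : ∑ i, ‖(((s⁻¹ : ℝ) : ℂ) * u) • ξ i‖ ^ 2 = s⁻¹ ^ 2 * √(∑ j, ‖ξ j‖ ^ 2) ^ 2 := by
      rw [Real.sq_sqrt hξ0, Finset.mul_sum]
      refine Finset.sum_congr rfl fun i _ => ?_
      rw [norm_smul, norm_mul, hu, mul_one, mul_pow, Complex.norm_real, Real.norm_eq_abs, sq_abs]
    have e3 : ∑ i, ∑ j, ⟪(s : ℂ) • η i, (πC (θ (m i j))) ((((s⁻¹ : ℝ) : ℂ) * u) • ξ j)⟫_ℂ =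
        u * ∑ i, ∑ j, ⟪η i, (πC (θ (m i j))) (ξ j)⟫_ℂ := by
      rw [Finset.mul_sum]
      refine Finset.sum_congr rfl fun i _ => ?_
      rw [Finset.mul_sum]
      refine Finset.sum_congr rfl fun j _ => ?_
      rw [map_smul, inner_smul_left, inner_smul_right]
      have hs' : (s : ℂ) ≠ 0 := by exact_mod_cast hs.ne'
      rw [Complex.conj_ofReal]
      push_cast
      field_simp
    rw [e1, e2, e3] at h2
    exact h2
  · intro i j
    show πC (θ (if i = j then (c : ℂ) • (1 : B) else 0)) = _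
    split_ifs
    · rw [map_smul, h1, map_smul, map_one]
    · rw [map_zero, map_zero]
  · intro i j
    rw [mapHom_apply, CStarMatrix.map_apply]; simp [blk]
  · intro i j
    rw [mapHom_apply, CStarMatrix.map_apply]; simp [blk, map_star, cp_star]
  · intro i j
    show πC (θ (if i = j then (c : ℂ) • (1 : B) else 0)) = _
    split_ifs
    · rw [map_smul, h1, map_smul, map_one]
    · rw [map_zero, map_zero]

end bound2

end Pool.Agent.NormEnv
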