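import Mathlib

/-!
# Irreducible representations of `A` with a UCP extension to `I`

Let `A ⊆ I` be unital `C⋆`-algebras, with `I` faithfully represented.  For every `a : A` there is
an irreducible representation `σ` of `A` with `‖a‖ ≤ ‖σ a‖` which extends to a UCP map on `I`.
-/

open scoped CStarAlgebra ComplexOrder InnerProductSpace

universe u v w

namespace Pool.Agent.NormEnv

namespace Irrep

section Functional

variable {I : Type u} [CStarAlgebra I] [PartialOrder I] [StarOrderedRing I]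

/-- Cauchy-Schwarz for positive functionals. -/
lemma norm_apply_sq_le (f : I →ₚ[ℂ] ℂ) (x : I) :
    ‖f x‖ ^ 2 ≤ (f 1).re * (f (star x * x)).re := by
  have h := norm_inner_le_norm (𝕜 := ℂ) (f.toPreGNS 1) (f.toPreGNS x)
  rw [f.preGNS_inner_def] at h
  simp only [PositiveLinearMap.ofPreGNS_toPreGNS, star_one, one_mul] at h
  have h1 : ‖f.toPreGNS (1 : I)‖ ^ 2 = (f 1).re := by
    have := f.preGNS_norm_sq (f.toPreGNS 1)
    simp only [PositiveLinearMap.ofPreGNS_toPreGNS, star_one, one_mul] at this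
    rw [← this]
    norm_cast
  have h2 : ‖f.toPreGNS x‖ ^ 2 = (f (star x * x)).re := by
    have := f.preGNS_norm_sq (f.toPreGNS x)
    simp only [PositiveLinearMap.ofPreGNS_toPreGNS] at this
    rw [← this]
    norm_cast
  rw [← h1, ← h2, ← mul_pow]
  gcongr

lemma apply_one_nonneg (f : I →ₚ[ℂ] ℂ) : 0 ≤ f 1 :=
  f.map_nonneg (by simp)

lemma apply_one_re_nonneg (f : I →ₚ[ℂ] ℂ) : 0 ≤ (f 1).re :=
  (Complex.nonneg_iff.mp (apply_one_nonneg f)).1

lemma apply_one_eq_re (f : I →ₚ[ℂ] ℂ) : f 1 = ((f 1).re : ℂ) := by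
  have := (Complex.nonneg_iff.mp (apply_one_nonneg f)).2
  apply Complex.ext <;> simp [← this]

lemma norm_apply_le (f : I →ₚ[ℂ] ℂ) (x : I) : ‖f x‖ ≤ (f 1).re * ‖x‖ := by
  have h := norm_apply_sq_le f x
  have h2 : (f (star x * x)).re ≤ (f 1).re * ‖x‖ ^ 2 := by
    have h3 := f.norm_apply_le_of_nonneg (star x * x) (star_mul_self_nonneg x)
    rw [CStarRing.norm_star_mul_self] at h3
    have h4 : ‖f 1‖ = (f 1).re := by
      conv_lhs => rw [apply_one_eq_re f]
      simp [abs_of_nonneg (apply_one_re_nonneg f)]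
    rw [h4] at h3
    calc (f (star x * x)).re ≤ ‖f (star x * x)‖ := Complex.re_le_norm _
      _ ≤ _ := h3
      _ = _ := by ring
  have h5 : ‖f x‖ ^ 2 ≤ ((f 1).re * ‖x‖) ^ 2 := by
    calc ‖f x‖ ^ 2 ≤ (f 1).re * (f (star x * x)).re := h
      _ ≤ (f 1).re * ((f 1).re * ‖x‖ ^ 2) := by
        gcongr
        exact apply_one_re_nonneg f
      _ = _ := by ring
  exact (sq_le_sq₀ (norm_nonneg _)
    (mul_nonneg (apply_one_re_nonneg f) (norm_nonneg _))).mp h5

/-- The positive functional given by a vector in a representation. -/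
noncomputable def vecFun {H : Type v} [NormedAddCommGroup H] [InnerProductSpace ℂ H]
    [CompleteSpace H] (π : I →⋆ₐ[ℂ] (H →L[ℂ] H)) (z : H) : I →ₚ[ℂ] ℂ :=
  PositiveLinearMap.mk₀
    { toFun := fun x => ⟪z, π x z⟫_ℂ
      map_add' := fun x y => by simp
      map_smul' := fun c x => by simp }
    (fun x hx => by
      obtain ⟨y, rfl⟩ := CStarAlgebra.nonneg_iff_eq_star_mul_self.mp hx
      change 0 ≤ ⟪z, π (star y * y) z⟫_ℂ
      rw [map_mul, map_star, mul_apply_eq_comp,
        ContinuousLinearMap.star_eq_adjoint, ContinuousLinearMap.adjoint_inner_right,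
        inner_self_eq_norm_sq_to_K]
      have h : (0 : ℝ) ≤ ‖π y z‖ ^ 2 := sq_nonneg _
      have h2 : (0 : ℂ) ≤ ((‖π y z‖ ^ 2 : ℝ) : ℂ) := by exact_mod_cast h
      simp)

@[simp]
lemma vecFun_apply {H : Type v} [NormedAddCommGroup H] [InnerProductSpace ℂ H]
    [CompleteSpace H] (π : I →⋆ₐ[ℂ] (H →L[ℂ] H)) (z : H) (x : I) :
    vecFun π z x = ⟪z, π x z⟫_ℂ := rfl

end Functional

section States

variable (I : Type u) [CStarAlgebra I] [PartialOrder I] [StarOrderedRing I]

/-- The states of `I`, as a set of functions. -/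
def stateSet : Set (I → ℂ) := {f | ∃ ψ : I →ₚ[ℂ] ℂ, ψ 1 = 1 ∧ ⇑ψ = f}

lemma stateSet_eq : stateSet I = {f : I → ℂ | (∀ x y, f (x + y) = f x + f y) ∧
    (∀ (c : ℂ) x, f (c • x) = c * f x) ∧ (∀ x, 0 ≤ x → 0 ≤ f x) ∧ f 1 = 1} := by
  ext f
  constructor
  · rintro ⟨ψ, h1, rfl⟩
    exact ⟨fun x y => map_add _ _ _, fun c x => by simp, fun x hx => ψ.map_nonneg hx, h1⟩
  · rintro ⟨h1, h2, h3, h4⟩
    refine ⟨PositiveLinearMap.mk₀ { toFun := f, map_add' := h1, map_smul' := h2 } h3, h4, rfl⟩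

lemma isCompact_stateSet : IsCompact (stateSet I) := by
  have hc : IsCompact (Set.pi Set.univ fun x : I => Metric.closedBall (0 : ℂ) ‖x‖) :=
    isCompact_univ_pi fun x => isCompact_closedBall _ _
  refine hc.of_isClosed_subset ?_ ?_
  · rw [stateSet_eq]
    have e : {f : I → ℂ | (∀ x y, f (x + y) = f x + f y) ∧
        (∀ (c : ℂ) x, f (c • x) = c * f x) ∧ (∀ x, 0 ≤ x → 0 ≤ f x) ∧ f 1 = 1} =
        (⋂ x : I, ⋂ y : I, {f : I → ℂ | f (x + y) = f x + f y}) ∩
        ((⋂ c : ℂ, ⋂ x : I, {f : I → ℂ | f (c • x) = c * f x}) ∩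
        ((⋂ x : I, ⋂ _ : 0 ≤ x, {f : I → ℂ | 0 ≤ f x}) ∩ {f : I → ℂ | f 1 = 1})) := by
      ext f; simp
    rw [e]
    refine IsClosed.inter ?_ (IsClosed.inter ?_ (IsClosed.inter ?_ ?_))
    · refine isClosed_iInter fun x => isClosed_iInter fun y => isClosed_eq ?_ ?_ <;> fun_prop
    · refine isClosed_iInter fun x => isClosed_iInter fun y => isClosed_eq ?_ ?_ <;> fun_prop
    · refine isClosed_iInter fun x => isClosed_iInter fun _ => isClosed_le ?_ ?_ <;> fun_prop
    · exact isClosed_eq (by fun_prop) (by fun_prop)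
  · rintro f ⟨ψ, h1, rfl⟩ x -
    have := norm_apply_le ψ x
    rw [h1] at this
    simpa using this

variable {I}
variable {A : Type w} [CStarAlgebra A]

/-- The restrictions to `A` of the states of `I`. -/
def restrSet (ι : A →⋆ₐ[ℂ] I) : Set (A → ℂ) := (fun f : I → ℂ => f ∘ ι) '' stateSet I

lemma isCompact_restrSet (ι : A →⋆ₐ[ℂ] I) : IsCompact (restrSet ι) := by
  refine (isCompact_stateSet I).image ?_
  exact continuous_pi fun a => continuous_apply (ι a)

/-- there is an extreme restricted state which is large at `star a * a` -/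
lemma exists_extreme (ι : A →⋆ₐ[ℂ] I) (hne : (restrSet ι).Nonempty) (b : A) :
    ∃ φ ∈ (restrSet ι).extremePoints ℝ, ∀ φ' ∈ restrSet ι, (φ' b).re ≤ (φ b).re := by
  let l : StrongDual ℝ (A → ℂ) := Complex.reCLM ∘L (ContinuousLinearMap.proj (R := ℝ) b)
  have hexp : IsExposed ℝ (restrSet ι) (l.toExposed (restrSet ι)) :=
    ContinuousLinearMap.toExposed.isExposed
  obtain ⟨f, hf, hmax⟩ := (isCompact_restrSet ι).exists_isMaxOn hne l.continuous.continuousOn
  have hne' : (l.toExposed (restrSet ι)).Nonempty := ⟨f, hf, fun y hy => hmax hy⟩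
  obtain ⟨φ, hφ⟩ := (hexp.isCompact (isCompact_restrSet ι)).extremePoints_nonempty hne'
  refine ⟨φ, hexp.isExtreme.extremePoints_subset_extremePoints hφ, fun φ' hφ' => ?_⟩
  exact hφ.1.2 φ' hφ'

/-- the key consequence of extremality -/
lemma eq_of_extreme (ι : A →⋆ₐ[ℂ] I) (φ : A → ℂ) (hφ : φ ∈ (restrSet ι).extremePoints ℝ)
    (ψ₁ ψ₂ : I →ₚ[ℂ] ℂ) (h : ∀ b, ψ₁ (ι b) + ψ₂ (ι b) = φ b) (b : A) :
    ψ₁ (ι b) = ψ₁ 1 * φ b := by
  have hφ1 : φ 1 = 1 := by
    obtain ⟨f, ⟨ψ, h1, rfl⟩, rfl⟩ := hφ.1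
    simp [h1]
  have hsum : (ψ₁ 1).re + (ψ₂ 1).re = 1 := by
    have := h 1
    rw [hφ1, map_one] at this
    have h2 := congrArg Complex.re this
    simpa using h2
  have n1 := apply_one_re_nonneg ψ₁
  have n2 := apply_one_re_nonneg ψ₂
  rcases n1.eq_or_lt with h0 | h0
  · have e : ∀ x, ψ₁ x = 0 := fun x => by
      have := norm_apply_le ψ₁ x
      rw [← h0, zero_mul] at this
      exact norm_le_zero_iff.mp this
    rw [e, e]; simp
  rcases n2.eq_or_lt with h1 | h1
  · have e : ∀ x, ψ₂ x = 0 := fun x => by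
      have := norm_apply_le ψ₂ x
      rw [← h1, zero_mul] at this
      exact norm_le_zero_iff.mp this
    have e1 : ψ₁ 1 = 1 := by
      rw [apply_one_eq_re ψ₁]
      rw [← h1] at hsum
      simp only [add_zero] at hsum
      simp [hsum]
    rw [e1, ← h b, e]; simp
  · -- both positive
    have key : ∀ ψ : I →ₚ[ℂ] ℂ, 0 < (ψ 1).re →
        (fun b : A => ((ψ 1).re : ℂ)⁻¹ * ψ (ι b)) ∈ restrSet ι := by
      intro ψ hψ
      refine ⟨fun x => ((ψ 1).re : ℂ)⁻¹ * ψ x, ?_, rfl⟩
      rw [stateSet_eq]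
      refine ⟨fun x y => by simp [mul_add], fun c x => by simp; ring, fun x hx => ?_, ?_⟩
      · refine mul_nonneg ?_ (ψ.map_nonneg hx)
        rw [← Complex.ofReal_inv]
        exact_mod_cast (inv_pos.mpr hψ).le
      · simp only
        conv_lhs => rw [apply_one_eq_re ψ]
        simp only [Complex.ofReal_re]
        exact inv_mul_cancel₀ (by exact_mod_cast hψ.ne')
    have hmem : φ ∈ openSegment ℝ (fun b : A => ((ψ₁ 1).re : ℂ)⁻¹ * ψ₁ (ι b))
        (fun b : A => ((ψ₂ 1).re : ℂ)⁻¹ * ψ₂ (ι b)) := by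
      refine ⟨(ψ₁ 1).re, (ψ₂ 1).re, h0, h1, hsum, ?_⟩
      funext b
      have e1 : ((ψ₁ 1).re : ℂ) ≠ 0 := by exact_mod_cast h0.ne'
      have e2 : ((ψ₂ 1).re : ℂ) ≠ 0 := by exact_mod_cast h1.ne'
      simp only [Pi.add_apply, Pi.smul_apply, Complex.real_smul]
      rw [← mul_assoc, ← mul_assoc, mul_inv_cancel₀ e1, mul_inv_cancel₀ e2, one_mul, one_mul, h b]
    have := (mem_extremePoints.mp hφ).2 _ (key ψ₁ h0) _ (key ψ₂ h1) hmem
    have h3 := congrFun this.1 b
    rw [← h3]
    conv_rhs => rw [apply_one_eq_re ψ₁]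
    simp only [Complex.ofReal_re]
    have e1 : ((ψ₁ 1).re : ℂ) ≠ 0 := by exact_mod_cast h0.ne'
    rw [← mul_assoc, mul_inv_cancel₀ e1, one_mul]

end States

lemma exists_eq_star_mul {C : Type w} [NonUnitalCStarAlgebra C] [PartialOrder C]
    [StarOrderedRing C] (M : C) (hM : 0 ≤ M) : ∃ N, M = star N * N :=
  CStarAlgebra.nonneg_iff_eq_star_mul_self.mp hM

lemma exists_negPart {C : Type w} [NonUnitalCStarAlgebra C] [PartialOrder C]
    [StarOrderedRing C] (P : C) (h : IsSelfAdjoint P) :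
    ∃ N W : C, star N = N ∧ N * P * N = - (star W * W) ∧ (W = 0 → 0 ≤ P) := by
  have hN : 0 ≤ P⁻ := CFC.negPart_nonneg P
  have hs : star (P⁻) = P⁻ := (IsSelfAdjoint.of_nonneg hN).star_eq
  have hP : P⁺ - P⁻ = P := CFC.posPart_sub_negPart P h
  have h0 : P⁻ * P⁺ = 0 := CFC.negPart_mul_posPart P
  have hp : 0 ≤ P⁺ := CFC.posPart_nonneg P
  generalize P⁻ = N at *
  generalize P⁺ = N' at *
  have h3 : 0 ≤ N * N * N := by
    have := star_left_conjugate_nonneg hN N
    rwa [hs] at this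
  obtain ⟨W, hW⟩ := exists_eq_star_mul _ h3
  refine ⟨N, W, hs, ?_, ?_⟩
  · rw [← hW, ← hP, mul_sub, h0, zero_sub, neg_mul]
  · rintro rfl
    rw [star_zero, zero_mul] at hW
    have h4 : N = 0 := by
      have e1 : star (N * N) * (N * N) = 0 := by
        rw [star_mul, hs, ← mul_assoc, hW, zero_mul]
      have e2 := CStarRing.star_mul_self_eq_zero_iff _ |>.mp e1
      have e3 : star N * N = 0 := by rw [hs]; exact e2
      exact CStarRing.star_mul_self_eq_zero_iff _ |>.mp e3
    rw [← hP, h4, sub_zero]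
    exact hp

section Act
variable {H : Type v} [NormedAddCommGroup H] [InnerProductSpace ℂ H]
    [CompleteSpace H] {n : Type w} [Fintype n] [DecidableEq n]

/-- action of an operator matrix on column vectors -/
def act (P : CStarMatrix n n (H →L[ℂ] H)) (ζ : n → H) : n → H := fun i => ∑ j, P i j (ζ j)

/-- sesquilinear form on column vectors -/
noncomputable def ip (ζ ζ' : n → H) : ℂ := ∑ i, ⟪ζ i, ζ' i⟫_ℂ

omit [CompleteSpace H] [DecidableEq n] in
lemma act_mul (P Q : CStarMatrix n n (H →L[ℂ] H)) (ζ : n → H) :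
    act (P * Q) ζ = act P (act Q ζ) := by
  funext i
  simp only [act, CStarMatrix.mul_apply, sum_apply, map_sum, mul_apply_eq_comp]
  exact Finset.sum_comm

omit [DecidableEq n] in
lemma ip_act_star (P : CStarMatrix n n (H →L[ℂ] H)) (ζ ζ' : n → H) :
    ip ζ (act (star P) ζ') = ip (act P ζ) ζ' := by
  simp only [act, ip, inner_sum, sum_inner, CStarMatrix.star_apply,
    ContinuousLinearMap.star_eq_adjoint, ContinuousLinearMap.adjoint_inner_right]
  exact Finset.sum_comm

omit [CompleteSpace H] [DecidableEq n] in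
lemma act_add (P Q : CStarMatrix n n (H →L[ℂ] H)) (ζ : n → H) :
    act (P + Q) ζ = act P ζ + act Q ζ := by
  funext i
  simp [act, Finset.sum_add_distrib]

omit [CompleteSpace H] [DecidableEq n] in
lemma act_sub (P Q : CStarMatrix n n (H →L[ℂ] H)) (ζ : n → H) :
    act (P - Q) ζ = act P ζ - act Q ζ := by
  funext i
  simp [act, Finset.sum_sub_distrib]

omit [CompleteSpace H] [DecidableEq n] in
lemma act_neg (P : CStarMatrix n n (H →L[ℂ] H)) (ζ : n → H) :
    act (-P) ζ = - act P ζ := by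
  funext i
  simp [act]

omit [CompleteSpace H] [DecidableEq n] in
lemma act_vadd (P : CStarMatrix n n (H →L[ℂ] H)) (ζ ζ' : n → H) :
    act P (ζ + ζ') = act P ζ + act P ζ' := by
  funext i
  simp [act, Finset.sum_add_distrib]

omit [CompleteSpace H] [DecidableEq n] in
lemma act_vsmul (P : CStarMatrix n n (H →L[ℂ] H)) (c : ℂ) (ζ : n → H) :
    act P (c • ζ) = c • act P ζ := by
  funext i
  simp [act, Finset.smul_sum]

omit [CompleteSpace H] [DecidableEq n] in
lemma ip_self (ζ : n → H) : ip ζ ζ = ((∑ i, ‖ζ i‖ ^ 2 : ℝ) : ℂ) := by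
  simp only [ip, inner_self_eq_norm_sq_to_K, Complex.ofReal_sum, Complex.ofReal_pow]
  rfl

omit [CompleteSpace H] [DecidableEq n] in
lemma eq_zero_of_ip_self (ζ : n → H) (h : ip ζ ζ = 0) : ζ = 0 := by
  rw [ip_self] at h
  have h1 : ∑ i, ‖ζ i‖ ^ 2 = 0 := by exact_mod_cast h
  rw [Finset.sum_eq_zero_iff_of_nonneg (fun i _ => sq_nonneg _)] at h1
  funext i
  simpa using h1 i (Finset.mem_univ i)

omit [CompleteSpace H] in
lemma eq_zero_of_act (P : CStarMatrix n n (H →L[ℂ] H)) (h : ∀ ζ, act P ζ = 0) : P = 0 := by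
  ext i j x
  have := congrFun (h (Pi.single j x)) i
  rw [act, Finset.sum_eq_single j] at this
  · simpa using this
  · intro k _ hk
    simp [hk]
  · simp

omit [CompleteSpace H] in
lemma eq_zero_of_form (P : CStarMatrix n n (H →L[ℂ] H)) (h : ∀ ζ, ip ζ (act P ζ) = 0) : P = 0 := by
  have h2 : ∀ ζ ζ', ip ζ (act P ζ') = 0 := by
    intro ζ ζ'
    have ladd : ∀ a b c : n → H, ip (a + b) c = ip a c + ip b c := by
      intro a b c; simp [ip, Finset.sum_add_distrib]
    have radd : ∀ a b c : n → H, ip a (b + c) = ip a b + ip a c := by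
      intro a b c; simp [ip, Finset.sum_add_distrib]
    have lsmul : ∀ (r : ℂ) (a c : n → H), ip (r • a) c = (starRingEnd ℂ) r * ip a c := by
      intro r a c; simp only [ip, Finset.mul_sum, Pi.smul_apply, inner_smul_left]
    have rsmul : ∀ (r : ℂ) (a c : n → H), ip a (r • c) = r * ip a c := by
      intro r a c; simp [ip, Finset.mul_sum]
    have e1 := h (ζ + ζ')
    have e2 := h (ζ + Complex.I • ζ')
    rw [act_vadd, ladd, radd, radd, h, h] at e1
    rw [act_vadd, act_vsmul, ladd, radd, radd, lsmul, lsmul, rsmul, rsmul, h, h] at e2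
    simp only [Complex.conj_I, mul_zero, zero_add, add_zero] at e1 e2
    have e3 : Complex.I * (ip ζ (act P ζ') - ip ζ' (act P ζ)) = 0 := by
      linear_combination e2
    have e4 := (mul_eq_zero.mp e3).resolve_left Complex.I_ne_zero
    have e5 : 2 * ip ζ (act P ζ') = 0 := by linear_combination e1 + e4
    simpa using e5
  refine eq_zero_of_act P fun ζ => eq_zero_of_ip_self _ (h2 _ _)

theorem nonneg_of_forall_inner (P : CStarMatrix n n (H →L[ℂ] H))
    (hP : ∀ ζ : n → H, 0 ≤ ∑ i, ∑ j, ⟪ζ i, P i j (ζ j)⟫_ℂ) : 0 ≤ P := by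
  have hP' : ∀ ζ : n → H, 0 ≤ ip ζ (act P ζ) := by
    intro ζ
    have := hP ζ
    simpa [ip, act, inner_sum] using this
  have hcs : ∀ a b : n → H, ip a b = (starRingEnd ℂ) (ip b a) := by
    intro a b; simp [ip]
  have hsa : IsSelfAdjoint P := by
    have e : star P - P = 0 := by
      refine eq_zero_of_form _ fun ζ => ?_
      have rsub : ∀ a b c : n → H, ip a (b - c) = ip a b - ip a c := by
        intro a b c; simp [ip, Finset.sum_sub_distrib]
      rw [act_sub, rsub, ip_act_star, hcs, sub_eq_zero]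
      have := (Complex.nonneg_iff.mp (hP' ζ)).2
      exact Complex.conj_eq_iff_im.mpr this.symm
    exact sub_eq_zero.mp e
  obtain ⟨N, W, hN, hNW, hW⟩ := exists_negPart P hsa
  apply hW
  refine eq_zero_of_act W fun ζ => eq_zero_of_ip_self _ ?_
  have h1 := hP' (act N ζ)
  have h2 : ip (act N ζ) (act P (act N ζ)) = - ip (act W ζ) (act W ζ) := by
    have rneg : ∀ a b : n → H, ip a (-b) = - ip a b := by
      intro a b; simp [ip]
    rw [← ip_act_star, hN, ← act_mul, ← act_mul, hNW, act_neg, rneg, act_mul,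
      ip_act_star]
  rw [h2, ip_self] at h1
  rw [ip_self]
  have h3 : (0 : ℝ) ≤ - ∑ i, ‖act W ζ i‖ ^ 2 := by exact_mod_cast h1
  have h4 : 0 ≤ ∑ i, ‖act W ζ i‖ ^ 2 := Finset.sum_nonneg fun i _ => sq_nonneg _
  have h5 : ∑ i, ‖act W ζ i‖ ^ 2 = 0 := by linarith
  rw [h5]; simp

end Act

section Compress

variable {I : Type u} [CStarAlgebra I] [PartialOrder I] [StarOrderedRing I]
variable {L : Type v} [NormedAddCommGroup L] [InnerProductSpace ℂ L] [CompleteSpace L]

/-- compression of an operator to a closed subspace -/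
noncomputable def compr (K : Submodule ℂ L) [CompleteSpace K] (x : L →L[ℂ] L) : K →L[ℂ] K :=
  K.orthogonalProjectionOnto ∘L x ∘L K.subtypeL

lemma inner_compr (K : Submodule ℂ L) [CompleteSpace K] (x : L →L[ℂ] L) (k k' : K) :
    ⟪k, compr K x k'⟫_ℂ = ⟪(k : L), x k'⟫_ℂ := by
  unfold compr
  rw [ContinuousLinearMap.comp_apply, ← K.adjoint_subtypeL,
    ContinuousLinearMap.adjoint_inner_right]
  rfl

omit [CompleteSpace L] in
lemma compr_coe (K : Submodule ℂ L) [CompleteSpace K] (x : L →L[ℂ] L) (k : K)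
    (h : x k ∈ K) : ((compr K x k : K) : L) = x k := by
  have := Submodule.starProjection_eq_self_iff.mpr h
  exact this

/-- compression of a representation is completely positive -/
noncomputable def comprCP (p : I →⋆ₐ[ℂ] (L →L[ℂ] L)) (K : Submodule ℂ L) [CompleteSpace K] :
    I →CP (K →L[ℂ] K) where
  toFun x := compr K (p x)
  map_add' x y := by simp [compr]
  map_smul' c x := by
    ext k; simp [compr]
  map_cstarMatrix_nonneg' n M hM := by
    refine nonneg_of_forall_inner _ fun ζ => ?_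
    obtain ⟨N, rfl⟩ := exists_eq_star_mul M hM
    have e : ∑ i, ∑ j, ⟪ζ i, ((star N * N).map (fun x => compr K (p x))) i j (ζ j)⟫_ℂ =
        ∑ l, ((‖∑ i, p (N l i) (ζ i : L)‖ ^ 2 : ℝ) : ℂ) := by
      have e1 : ∀ l, ((‖∑ i, p (N l i) (ζ i : L)‖ ^ 2 : ℝ) : ℂ) =
          ∑ i, ∑ j, ⟪(ζ i : L), p (star (N l i) * N l j) (ζ j : L)⟫_ℂ := by
        intro l
        have := inner_self_eq_norm_sq_to_K (𝕜 := ℂ) (∑ i, p (N l i) (ζ i : L))
        rw [Complex.ofReal_pow]
        refine Eq.trans this.symm ?_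
        rw [sum_inner]
        refine Finset.sum_congr rfl fun i _ => ?_
        rw [inner_sum]
        refine Finset.sum_congr rfl fun j _ => ?_
        rw [map_mul, map_star, mul_apply_eq_comp, ContinuousLinearMap.star_eq_adjoint,
          ContinuousLinearMap.adjoint_inner_right]
      simp_rw [e1]
      symm
      rw [Finset.sum_comm]
      refine Finset.sum_congr rfl fun i _ => ?_
      rw [Finset.sum_comm]
      refine Finset.sum_congr rfl fun j _ => ?_
      rw [CStarMatrix.map_apply, inner_compr, CStarMatrix.mul_apply, map_sum]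
      rw [sum_apply, inner_sum]
      rfl
    exact le_of_le_of_eq (Finset.sum_nonneg fun l _ => by
      have h : (0 : ℝ) ≤ ‖∑ i, p (N l i) (ζ i : L)‖ ^ 2 := sq_nonneg _
      exact_mod_cast h) e.symm

@[simp]
lemma comprCP_apply (p : I →⋆ₐ[ℂ] (L →L[ℂ] L)) (K : Submodule ℂ L) [CompleteSpace K] (x : I) :
    comprCP p K x = compr K (p x) := rfl

lemma compr_star (K : Submodule ℂ L) [CompleteSpace K] (x : L →L[ℂ] L) :
    compr K (star x) = star (compr K x) := by
  rw [ContinuousLinearMap.star_eq_adjoint (compr K x), ContinuousLinearMap.eq_adjoint_iff]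
  intro k k'
  rw [inner_compr, ← inner_conj_symm, inner_compr, ContinuousLinearMap.star_eq_adjoint,
    ContinuousLinearMap.adjoint_inner_right, inner_conj_symm]

variable {A : Type w} [CStarAlgebra A]

/-- the subrepresentation of `A` on an invariant closed subspace -/
noncomputable def subrep (p : I →⋆ₐ[ℂ] (L →L[ℂ] L)) (ι : A →⋆ₐ[ℂ] I) (K : Submodule ℂ L)
    [CompleteSpace K] (hK : ∀ b, ∀ k ∈ K, p (ι b) k ∈ K) : A →⋆ₐ[ℂ] (K →L[ℂ] K) where
  toFun b := compr K (p (ι b))
  map_one' := by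
    ext k
    rw [compr_coe] <;> simp
  map_mul' b c := by
    ext k
    rw [compr_coe _ _ _ (hK _ _ k.2), mul_apply_eq_comp, compr_coe _ _ _ (hK _ _ (Subtype.mem _)),
      compr_coe _ _ _ (hK _ _ k.2), map_mul, map_mul, mul_apply_eq_comp]
  map_zero' := by simp [compr]
  map_add' x y := by simp [compr]
  commutes' r := by
    ext k
    rw [compr_coe _ _ _ (hK _ _ k.2)]
    simp [Algebra.algebraMap_eq_smul_one]
  map_star' b := by rw [map_star, map_star, compr_star]

lemma subrep_apply (p : I →⋆ₐ[ℂ] (L →L[ℂ] L)) (ι : A →⋆ₐ[ℂ] I) (K : Submodule ℂ L)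
    [CompleteSpace K] (hK : ∀ b, ∀ k ∈ K, p (ι b) k ∈ K) (b : A) :
    subrep p ι K hK b = compr K (p (ι b)) := rfl

/-- the orbit map -/
noncomputable def orb (p : I →⋆ₐ[ℂ] (L →L[ℂ] L)) (ι : A →⋆ₐ[ℂ] I) (z : L) : A →ₗ[ℂ] L where
  toFun := fun b => p (ι b) z
  map_add' := fun b c => by simp
  map_smul' := fun r b => by simp

/-- the cyclic subspace -/
noncomputable def cyc (p : I →⋆ₐ[ℂ] (L →L[ℂ] L)) (ι : A →⋆ₐ[ℂ] I) (z : L) : Submodule ℂ L :=
  (LinearMap.range (orb p ι z)).topologicalClosure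

instance (p : I →⋆ₐ[ℂ] (L →L[ℂ] L)) (ι : A →⋆ₐ[ℂ] I) (z : L) : CompleteSpace (cyc p ι z) :=
  (Submodule.isClosed_topologicalClosure _).completeSpace_coe

lemma mem_cyc (p : I →⋆ₐ[ℂ] (L →L[ℂ] L)) (ι : A →⋆ₐ[ℂ] I) (z : L) (b : A) :
    p (ι b) z ∈ cyc p ι z :=
  Submodule.le_topologicalClosure _ ⟨b, rfl⟩

lemma self_mem_cyc (p : I →⋆ₐ[ℂ] (L →L[ℂ] L)) (ι : A →⋆ₐ[ℂ] I) (z : L) :
    z ∈ cyc p ι z := by
  simpa using mem_cyc p ι z 1

lemma cyc_inv (p : I →⋆ₐ[ℂ] (L →L[ℂ] L)) (ι : A →⋆ₐ[ℂ] I) (z : L) (b : A) (k : L)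
    (hk : k ∈ cyc p ι z) : p (ι b) k ∈ cyc p ι z := by
  have hk' : k ∈ closure (LinearMap.range (orb p ι z) : Set L) := hk
  refine map_mem_closure (p (ι b)).continuous hk' ?_
  rintro _ ⟨c, rfl⟩
  exact ⟨b * c, by simp [orb]⟩

/-- density of the orbit of the cyclic vector -/
lemma dense_cyc (p : I →⋆ₐ[ℂ] (L →L[ℂ] L)) (ι : A →⋆ₐ[ℂ] I) (z : L) :
    DenseRange fun b : A =>
      subrep p ι (cyc p ι z) (cyc_inv p ι z) b ⟨z, self_mem_cyc p ι z⟩ := by
  intro k
  rw [closure_subtype]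
  have hk : (k : L) ∈ closure (LinearMap.range (orb p ι z) : Set L) := k.2
  refine closure_mono ?_ hk
  rintro _ ⟨c, rfl⟩
  refine ⟨_, ⟨c, rfl⟩, ?_⟩
  exact compr_coe _ _ _ (cyc_inv p ι z c _ (self_mem_cyc p ι z))

end Compress

section Commutant

variable {A : Type w} [CStarAlgebra A] {K : Type v} [NormedAddCommGroup K]
  [InnerProductSpace ℂ K] [CompleteSpace K]

/-- an intertwiner vanishing weakly on the cyclic vector is zero -/
lemma eq_zero_of_cyclic (σ : A →⋆ₐ[ℂ] (K →L[ℂ] K)) (z : K) (hz : DenseRange fun b => σ b z)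
    (X : K →L[ℂ] K) (hX : ∀ b, X * σ b = σ b * X) (h : ∀ b, ⟪z, X (σ b z)⟫_ℂ = 0) : X = 0 := by
  have h1 : ∀ b c, ⟪σ c z, X (σ b z)⟫_ℂ = 0 := by
    intro b c
    have := h (star c * b)
    rw [map_mul, map_star, mul_apply_eq_comp] at this
    have e : X (star (σ c) (σ b z)) = star (σ c) (X (σ b z)) := by
      have := congrArg (fun Y : K →L[ℂ] K => Y (σ b z)) (hX (star c))
      rw [map_star] at this
      exact this
    rw [e, ContinuousLinearMap.star_eq_adjoint, ContinuousLinearMap.adjoint_inner_right] at this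
    exact this
  have h2 : ∀ b, X (σ b z) = 0 := by
    intro b
    have : ∀ k : K, ⟪k, X (σ b z)⟫_ℂ = 0 := by
      intro k
      refine congrFun (hz.equalizer (g := fun k => ⟪k, X (σ b z)⟫_ℂ) (h := fun _ => 0)
        (by fun_prop) (by fun_prop) ?_) k
      funext c
      exact h1 b c
    exact inner_self_eq_zero.mp (this _)
  ext k
  refine congrFun (hz.equalizer (g := fun k => X k) (h := fun _ => 0)
        (by fun_prop) (by fun_prop) ?_) k
  funext c
  exact h2 c

/-- if `S* S` is scalar for all intertwiners, then all intertwiners are scalar -/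
lemma scalar_of_star_mul (σ : A →⋆ₐ[ℂ] (K →L[ℂ] K))
    (h : ∀ S : K →L[ℂ] K, (∀ b, S * σ b = σ b * S) → ∃ c : ℂ, star S * S = c • 1)
    (S : K →L[ℂ] K) (hS : ∀ b, S * σ b = σ b * S) : ∃ c : ℂ, S = c • 1 := by
  obtain ⟨c0, h0⟩ := h S hS
  obtain ⟨c1, h1⟩ := h (S + 1) (fun b => by rw [add_mul, mul_add, hS, one_mul, mul_one])
  obtain ⟨c2, h2⟩ := h (S + Complex.I • 1)
    (fun b => by rw [add_mul, mul_add, hS, smul_mul_assoc, mul_smul_comm, one_mul, mul_one])
  have e1 : star S + S = (c1 - c0 - 1) • 1 := by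
    rw [star_add, star_one, add_mul, mul_add, mul_add, h0] at h1
    rw [sub_smul, sub_smul, ← h1]
    simp only [mul_one, one_mul, one_smul]
    abel
  have e2 : Complex.I • star S - Complex.I • S = (c2 - c0 - 1) • 1 := by
    rw [star_add, star_smul, star_one, add_mul, mul_add, mul_add, h0] at h2
    rw [sub_smul, sub_smul, ← h2]
    simp only [mul_one, one_mul, one_smul, smul_mul_assoc, mul_smul_comm, Complex.star_def,
      Complex.conj_I, neg_smul, smul_neg, smul_smul, Complex.I_mul_I]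
    simp only [neg_mul, Complex.I_mul_I, neg_smul, one_smul, neg_neg]
    abel
  have e3 : star S - S = (-(Complex.I * (c2 - c0 - 1))) • 1 := by
    have := congrArg (fun Y => (-Complex.I) • Y) e2
    simp only [smul_sub, smul_smul] at this
    simpa [neg_mul, Complex.I_mul_I] using this
  refine ⟨(2 : ℂ)⁻¹ * ((c1 - c0 - 1) - (-(Complex.I * (c2 - c0 - 1)))), ?_⟩
  rw [mul_smul, sub_smul, ← e1, ← e3, add_sub_sub_cancel]
  rw [← two_smul ℂ S, smul_smul]
  norm_num

end Commutant

section Main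

lemma exists_sqrt {C : Type w} [CStarAlgebra C] (a : C) : ∃ (r : ℝ) (R : C), 0 < r ∧
    star R * R = 1 - ((r⁻¹ : ℝ) : ℂ) • (star a * a) ∧
    ∀ b, Commute (star a * a) b → Commute R b := by
  let _ : PartialOrder C := CStarAlgebra.spectralOrder C
  have _ : StarOrderedRing C := CStarAlgebra.spectralOrderedRing C
  set r : ℝ := ‖a‖ ^ 2 + 1 with hr
  have hr0 : 0 < r := by positivity
  set D : C := 1 - ((r⁻¹ : ℝ) : ℂ) • (star a * a) with hD
  have hDnn : 0 ≤ D := by
    rw [hD, sub_nonneg]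
    have h1 : star a * a ≤ algebraMap ℝ C (‖a‖ ^ 2) := CStarAlgebra.star_mul_le_algebraMap_norm_sq
    rw [Complex.coe_smul]
    calc r⁻¹ • (star a * a) ≤ r⁻¹ • algebraMap ℝ C (‖a‖ ^ 2) :=
          smul_le_smul_of_nonneg_left h1 (by positivity)
      _ = algebraMap ℝ C (r⁻¹ * ‖a‖ ^ 2) := by
          rw [map_mul, Algebra.smul_def]
      _ ≤ algebraMap ℝ C 1 := by
          refine algebraMap_mono C ?_
          rw [inv_mul_le_one₀ hr0]
          linarith
      _ = 1 := map_one _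
  refine ⟨r, CFC.sqrt D, hr0, ?_, ?_⟩
  · rw [(IsSelfAdjoint.of_nonneg (CFC.sqrt_nonneg D)).star_eq]
    exact CFC.sqrt_mul_sqrt_self D hDnn
  · intro b hb
    have h2 : Commute D b := (Commute.one_left b).sub_left (hb.smul_left _)
    exact h2.cfcₙ_nnreal _

variable {A : Type w} [CStarAlgebra A] {I : Type u} [CStarAlgebra I] [PartialOrder I]
  [StarOrderedRing I]
variable {K : Type v} [NormedAddCommGroup K] [InnerProductSpace ℂ K] [CompleteSpace K]

/-- The commutant of the cyclic representation given by an extreme restricted state is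
trivial. -/
lemma scalar_of_extreme (ι : A →⋆ₐ[ℂ] I) (σ : A →⋆ₐ[ℂ] (K →L[ℂ] K)) (z : K)
    (hz : DenseRange fun b => σ b z)
    (F : K → (I →ₚ[ℂ] ℂ)) (hF : ∀ k b, F k (ι b) = ⟪k, σ b k⟫_ℂ)
    (hφ : (fun b : A => ⟪z, σ b z⟫_ℂ) ∈ (restrSet ι).extremePoints ℝ)
    (S : K →L[ℂ] K) (hS : ∀ b, S * σ b = σ b * S) : ∃ c : ℂ, S = c • 1 := by
  refine scalar_of_star_mul σ ?_ S hS
  clear hS S
  intro S hS
  have hS' : ∀ b, star S * σ b = σ b * star S := by
    intro b
    have := congrArg star (hS (star b))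
    rw [star_mul, star_mul, map_star, star_star] at this
    exact this.symm
  have hQ : ∀ b, star S * S * σ b = σ b * (star S * S) := by
    intro b
    rw [mul_assoc, hS, ← mul_assoc, hS', mul_assoc]
  obtain ⟨r, R, hr0, hRR, hRc'⟩ := exists_sqrt S
  have hRc : ∀ b, R * σ b = σ b * R := fun b => hRc' _ (hQ b)
  set t : ℝ := (Real.sqrt r)⁻¹ with ht
  have htt : t * t = r⁻¹ := by
    rw [ht, ← mul_inv, Real.mul_self_sqrt hr0.le]
  have happ : ∀ (X : K →L[ℂ] K) (b : A), X * σ b = σ b * X →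
      ⟪X z, σ b (X z)⟫_ℂ = ⟪z, (star X * X) (σ b z)⟫_ℂ := by
    intro X b h
    rw [mul_apply_eq_comp, ContinuousLinearMap.star_eq_adjoint,
      ContinuousLinearMap.adjoint_inner_right]
    congr 1
    exact (congrArg (fun Y : K →L[ℂ] K => Y z) h).symm
  have h1 : ∀ b, F ((t : ℂ) • S z) (ι b) = ⟪z, (((r⁻¹ : ℝ) : ℂ) • (star S * S)) (σ b z)⟫_ℂ := by
    intro b
    rw [hF, map_smul, inner_smul_left, inner_smul_right, happ S b (hS b), ← mul_assoc,
      Complex.conj_ofReal, ← Complex.ofReal_mul, htt, smul_apply, inner_smul_right]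
  have h2 : ∀ b, F (R z) (ι b) = ⟪z, (star R * R) (σ b z)⟫_ℂ := by
    intro b
    rw [hF, happ R b (hRc b)]
  have hsum : ∀ b, F ((t : ℂ) • S z) (ι b) + F (R z) (ι b) = ⟪z, σ b z⟫_ℂ := by
    intro b
    rw [h1, h2, ← inner_add_right, ← add_apply, hRR, add_sub_cancel]
    rfl
  have key := eq_of_extreme ι _ hφ _ _ hsum
  set c := F ((t : ℂ) • S z) 1 with hc
  have hX : ((r⁻¹ : ℝ) : ℂ) • (star S * S) - c • 1 = 0 := by
    refine eq_zero_of_cyclic σ z hz _ ?_ ?_
    · intro b
      rw [sub_mul, mul_sub, smul_mul_assoc, mul_smul_comm, hQ, smul_mul_assoc, mul_smul_comm,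
        one_mul, mul_one]
    · intro b
      rw [sub_apply, inner_sub_right, ← h1, key b, smul_apply, inner_smul_right]
      exact sub_self _
  refine ⟨r * c, ?_⟩
  rw [sub_eq_zero] at hX
  have := congrArg (fun Y => (r : ℂ) • Y) hX
  rw [smul_smul, smul_smul, ← Complex.ofReal_mul, mul_inv_cancel₀ hr0.ne', Complex.ofReal_one,
    one_smul] at this
  exact this

end Main

end Irrep

open Irrep in
/-- For `A ⊆ I ⊆ B(H)` and `a : A` there is an irreducible representation `σ` of `A`, with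
`‖a‖ ≤ ‖σ a‖`, which extends to a completely positive map on `I`. -/
theorem exists_irrep {A I : Type u}
    [CStarAlgebra A] [PartialOrder A] [StarOrderedRing A]
    [CStarAlgebra I] [PartialOrder I] [StarOrderedRing I]
    (ι : A →⋆ₐ[ℂ] I)
    {H : Type v} [NormedAddCommGroup H] [InnerProductSpace ℂ H] [CompleteSpace H]
    (π : I →⋆ₐ[ℂ] (H →L[ℂ] H)) (hπ : Function.Injective fun a => π (ι a)) (a : A) :
    ∃ (K : Type u) (_ : NormedAddCommGroup K) (_ : InnerProductSpace ℂ K) (_ : CompleteSpace K)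
      (σ : A →⋆ₐ[ℂ] (K →L[ℂ] K)) (T : I →CP (K →L[ℂ] K)),
      (∀ b, T (ι b) = σ b) ∧
      (∀ S : K →L[ℂ] K, (∀ b, S * σ b = σ b * S) → ∃ c : ℂ, S = c • 1) ∧
      ‖a‖ ≤ ‖σ a‖ := by
  by_cases hne : (restrSet ι).Nonempty
  · -- vector states are large
    obtain ⟨φ, hφ, hmax⟩ := exists_extreme ι hne (star a * a)
    have hnorm : ‖a‖ ^ 2 ≤ (φ (star a * a)).re := by
      have hiso : ‖a‖ = ‖π (ι a)‖ := by
        have := NonUnitalStarAlgHom.norm_map (π.comp ι) hπ a
        exact this.symm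
      have hφnn : 0 ≤ (φ (star a * a)).re := by
        obtain ⟨f, ⟨ψ, h1, rfl⟩, rfl⟩ := hφ.1
        have := ψ.map_nonneg (star_mul_self_nonneg (ι a))
        have h2 := (Complex.nonneg_iff.mp this).1
        simpa [map_star] using h2
      have hb : ‖π (ι a)‖ ≤ Real.sqrt (φ (star a * a)).re := by
        refine ContinuousLinearMap.opNorm_le_bound _ (Real.sqrt_nonneg _) fun h => ?_
        by_cases h0 : h = 0
        · simp [h0]
        have hpos : 0 < ‖h‖ := norm_pos_iff.mpr h0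
        set z : H := ((‖h‖⁻¹ : ℝ) : ℂ) • h with hz
        have hz1 : ‖z‖ = 1 := by
          rw [hz, norm_smul]
          simp [hpos.ne']
        have hmem : (fun b : A => ⟪z, π (ι b) z⟫_ℂ) ∈ restrSet ι := by
          refine ⟨_, ⟨vecFun π z, ?_, rfl⟩, rfl⟩
          rw [vecFun_apply, map_one, one_apply_eq_self, inner_self_eq_norm_sq_to_K, hz1]
          simp
        have h3 := hmax _ hmem
        have h4 : (⟪z, π (ι (star a * a)) z⟫_ℂ).re = ‖π (ι a) z‖ ^ 2 := by
          rw [map_mul, map_mul, map_star, map_star, mul_apply_eq_comp,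
            ContinuousLinearMap.star_eq_adjoint, ContinuousLinearMap.adjoint_inner_right,
            inner_self_eq_norm_sq_to_K]
          norm_cast
        rw [h4] at h3
        have h5 : ‖π (ι a) z‖ = ‖h‖⁻¹ * ‖π (ι a) h‖ := by
          rw [hz, map_smul, norm_smul]
          simp
        have h6 : ‖π (ι a) z‖ ≤ Real.sqrt (φ (star a * a)).re := Real.le_sqrt_of_sq_le h3
        rw [h5, inv_mul_le_iff₀ hpos] at h6
        linarith
      rw [hiso]
      calc ‖π (ι a)‖ ^ 2 ≤ (Real.sqrt (φ (star a * a)).re) ^ 2 := by gcongr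
        _ = _ := Real.sq_sqrt hφnn
    obtain ⟨f, ⟨ψ, h1, rfl⟩, hf⟩ := hφ.1
    set p := ψ.gnsStarAlgHom with hp
    set z : ψ.GNS := ((ψ.toPreGNS 1 : ψ.PreGNS) : ψ.GNS) with hz
    have hpz : ∀ x, ⟪z, p x z⟫_ℂ = ψ x := by
      intro x
      have e : p x z = ((ψ.toPreGNS x : ψ.PreGNS) : ψ.GNS) := by
        rw [hp, hz]
        change ψ.gnsNonUnitalStarAlgHom x _ = _
        rw [PositiveLinearMap.gnsNonUnitalStarAlgHom_apply_coe]
        simp
      rw [e, hz, UniformSpace.Completion.inner_coe, ψ.preGNS_inner_def]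
      simp
    have hφ' : ∀ b, φ b = ⟪z, p (ι b) z⟫_ℂ := by
      intro b
      rw [hpz, ← hf]; rfl
    set K := cyc p ι z with hK
    set σ := subrep p ι K (cyc_inv p ι z) with hσ
    set z' : K := ⟨z, self_mem_cyc p ι z⟩ with hz'
    have hφ'' : ∀ b, φ b = ⟪z', σ b z'⟫_ℂ := by
      intro b
      rw [hφ']
      exact (inner_compr K (p (ι b)) z' z').symm
    refine ⟨K, inferInstance, inferInstance, inferInstance, σ, comprCP p K, fun b => rfl, ?_, ?_⟩
    · intro S hS
      refine scalar_of_extreme ι σ z' (dense_cyc p ι z) (fun k => vecFun p (k : ψ.GNS))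
        (fun k b => (inner_compr K (p (ι b)) k k).symm) ?_ S hS
      have : (fun b => ⟪z', σ b z'⟫_ℂ) = φ := by
        funext b; exact (hφ'' b).symm
      rw [this]
      exact hφ
    · have hz1 : ‖z'‖ = 1 := by
        have e1 : φ 1 = 1 := by rw [← hf]; simp [h1]
        rw [hφ'', map_one, one_apply_eq_self, inner_self_eq_norm_sq_to_K] at e1
        have e2 : ‖z'‖ ^ 2 = 1 := by
          have e3 := congrArg Complex.re e1
          simpa [← Complex.ofReal_pow] using e3
        have e4 := norm_nonneg z'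
        nlinarith
      have e3 : (φ (star a * a)).re = ‖σ a z'‖ ^ 2 := by
        rw [hφ'', map_mul, map_star, mul_apply_eq_comp,
            ContinuousLinearMap.star_eq_adjoint, ContinuousLinearMap.adjoint_inner_right,
            inner_self_eq_norm_sq_to_K]
        norm_cast
      have e4 : ‖σ a z'‖ ≤ ‖σ a‖ := by
        have := (σ a).le_opNorm z'
        rwa [hz1, mul_one] at this
      rw [e3] at hnorm
      exact (abs_le_of_sq_le_sq' hnorm (norm_nonneg _)).2.trans e4
  · -- the trivial case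
    have hsub : Subsingleton A := by
      have hH : Subsingleton H := by
        by_contra hH
        rw [not_subsingleton_iff_nontrivial] at hH
        obtain ⟨h, h0⟩ := exists_ne (0 : H)
        apply hne
        have hpos : 0 < ‖h‖ := norm_pos_iff.mpr h0
        set z : H := ((‖h‖⁻¹ : ℝ) : ℂ) • h with hz
        have hz1 : ‖z‖ = 1 := by
          rw [hz, norm_smul]
          simp [hpos.ne']
        refine ⟨_, _, ⟨vecFun π z, ?_, rfl⟩, rfl⟩
        rw [vecFun_apply, map_one, one_apply_eq_self, inner_self_eq_norm_sq_to_K, hz1]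
        simp
      exact ⟨fun x y => hπ (ContinuousLinearMap.ext fun h => Subsingleton.elim _ _)⟩
    have ha : a = 0 := Subsingleton.elim _ _
    let K := EuclideanSpace ℂ PEmpty.{u + 1}
    have hK : Subsingleton (K →L[ℂ] K) :=
      ⟨fun x y => ContinuousLinearMap.ext fun h => Subsingleton.elim _ _⟩
    refine ⟨K, inferInstance, inferInstance, inferInstance,
      { toFun := fun _ => 0
        map_one' := Subsingleton.elim _ _
        map_mul' := fun _ _ => Subsingleton.elim _ _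
        map_zero' := Subsingleton.elim _ _
        map_add' := fun _ _ => Subsingleton.elim _ _
        commutes' := fun _ => Subsingleton.elim _ _
        map_star' := fun _ => Subsingleton.elim _ _ },
      { toFun := fun _ => 0
        map_add' := fun _ _ => Subsingleton.elim _ _
        map_smul' := fun _ _ => Subsingleton.elim _ _
        map_cstarMatrix_nonneg' := fun n M hM => (Subsingleton.elim _ _ : (0 : CStarMatrix _ _ _) = _).le },
      fun b => Subsingleton.elim _ _, fun S hS => ⟨0, Subsingleton.elim _ _⟩, by simp [ha]⟩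

end Pool.Agent.NormEnv
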