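import Pool.Agent.NormEnv.Local
import Pool.Agent.NormEnv.Irrep

/-! The global estimate. -/

open scoped CStarAlgebra ComplexOrder InnerProductSpace ENNReal

namespace Pool.Agent.NormEnv

universe u v w

section comp

variable {A B C : Type*} [CStarAlgebra A] [PartialOrder A] [StarOrderedRing A]
  [CStarAlgebra B] [PartialOrder B] [StarOrderedRing B]
  [CStarAlgebra C] [PartialOrder C] [StarOrderedRing C]

/-- A star homomorphism as a completely positive map. -/
noncomputable def homCP (φ : A →⋆ₐ[ℂ] B) : A →CP B where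
  toFun := φ
  map_add' := map_add φ
  map_smul' := map_smul φ
  map_cstarMatrix_nonneg' k M hM := by
    haveI : DecidableEq (Fin k) := inferInstance
    exact map_nonneg (mapHom φ) hM

lemma homCP_apply (φ : A →⋆ₐ[ℂ] B) (a : A) : homCP φ a = φ a := rfl

/-- Composition of completely positive maps. -/
noncomputable def compCP (S : B →CP C) (T : A →CP B) : A →CP C where
  toFun a := S (T a)
  map_add' a b := by rw [map_add, map_add]
  map_smul' c a := by rw [map_smul, map_smul]; rfl
  map_cstarMatrix_nonneg' k M hM :=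
    S.map_cstarMatrix_nonneg _ (T.map_cstarMatrix_nonneg M hM)

lemma compCP_apply (S : B →CP C) (T : A →CP B) (a : A) : compCP S T a = S (T a) := rfl

end comp

/-- Injectivity of a unital C*-algebra in the category of unital C*-algebras and unital completely
positive maps. -/
def IsInjectiveCStar (I : Type u) [CStarAlgebra I] [PartialOrder I] [StarOrderedRing I] : Prop :=
  ∀ (B C : Type u) [CStarAlgebra B] [PartialOrder B] [StarOrderedRing B]
    [CStarAlgebra C] [PartialOrder C] [StarOrderedRing C] (j : B →⋆ₐ[ℂ] C),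
    Function.Injective j → ∀ φ : B →CP I, φ 1 = 1 →
      ∃ ψ : C →CP I, ψ 1 = 1 ∧ ∀ b, ψ (j b) = φ b

/-- `ι : A → I` is an injective envelope of `A`. -/
structure IsInjectiveEnvelope {A I : Type u}
    [CStarAlgebra A] [PartialOrder A] [StarOrderedRing A]
    [CStarAlgebra I] [PartialOrder I] [StarOrderedRing I] (ι : A →⋆ₐ[ℂ] I) : Prop where
  injective_map : Function.Injective ι
  injective : IsInjectiveCStar I
  rigid : ∀ φ : I →CP I, (∀ a, φ (ι a) = ι a) → ∀ x, φ x = x

theorem core {A I : Type u}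
    [CStarAlgebra A] [PartialOrder A] [StarOrderedRing A]
    [CStarAlgebra I] [PartialOrder I] [StarOrderedRing I]
    (ι : A →⋆ₐ[ℂ] I) (hι : IsInjectiveEnvelope ι)
    {G : Type w} [Group G] (α : G →* (A ≃⋆ₐ[ℂ] A)) (β : G →* (I ≃⋆ₐ[ℂ] I))
    (hβ : ∀ g a, β g (ι a) = ι (α g a))
    {H0 : Type v} [NormedAddCommGroup H0] [InnerProductSpace ℂ H0] [CompleteSpace H0]
    (π₀ : I →⋆ₐ[ℂ] (H0 →L[ℂ] H0)) (hπ₀ : Function.Injective π₀)
    {F : Type*} [Fintype F] [DecidableEq F] {κ : Type*} [Fintype κ] (g : F → G)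
    (X : F → F → κ → κ → I) {c : ℝ} (hc : 0 ≤ c)
    (hX : ∀ R C : κ → A, (∑ i, R i * star (R i)) ≤ 1 → (∑ j, star (C j) * C j) ≤ 1 →
      MB (fun s t => π₀ (∑ i, ∑ j, β (g s) (ι (R i)) * X s t i j * β (g t) (ι (C j)))) c)
    (R C : κ → I) (hR : (∑ i, R i * star (R i)) ≤ 1) (hC : (∑ j, star (C j) * C j) ≤ 1) :
    MB (fun s t => π₀ (∑ i, ∑ j, β (g s) (R i) * X s t i j * β (g t) (C j))) c := by
  have hinj : Function.Injective fun a => π₀ (ι a) := hπ₀.comp hι.injective_map
  choose K i1 i2 i3 σ T hTσ hcomm hnorm using fun a => exists_irrep ι π₀ hinj a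
  -- consistent families
  have hfam : ∀ a : A, ∃ τ : G → (I →CP (K a →L[ℂ] K a)),
      (∀ g b, τ g (ι b) = σ a (α g b)) ∧
      ∀ g h (S : K a →L[ℂ] K a), (∀ b, S * σ a (α g b) = σ a (α h b) * S) →
        ∀ x, S * τ g x = τ h x * S := by
    intro a
    refine exists_consistent ι (fun g => (σ a).comp ((α g : A ≃⋆ₐ[ℂ] A) : A →⋆ₐ[ℂ] A)) ?_
      (fun g => compCP (T a) (homCP ((β g : I ≃⋆ₐ[ℂ] I) : I →⋆ₐ[ℂ] I))) ?_
    · intro g S hS
      apply hcomm a S
      intro b
      have h1 := hS ((α g).symm b)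
      simpa using h1
    · intro g b
      rw [compCP_apply, homCP_apply]
      show T a (β g (ι b)) = σ a (α g b)
      rw [hβ, hTσ]
  choose τ hτι hτc using hfam
  have hτ1 : ∀ a g, τ a g 1 = 1 := by
    intro a g
    rw [← map_one ι, hτι, map_one, map_one]
  classical
  -- the faithful representation
  have hρ : Function.Injective (sumHom σ) := by
    rw [injective_iff_map_eq_zero]
    intro a ha
    have h1 : σ a a = 0 := by
      ext x
      have h2 := congrArg (fun S : lp K 2 →L[ℂ] lp K 2 => S (lp.single 2 a x) a) ha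
      simp only [sumHom_apply] at h2
      rw [lp.single_apply_self] at h2
      simpa using h2
    have h3 := hnorm a
    rw [h1, norm_zero] at h3
    exact norm_le_zero_iff.mp h3
  obtain ⟨θ, hθ1, hθ⟩ := hι.injective A (lp K 2 →L[ℂ] lp K 2) (sumHom σ) hρ (homCP ι)
    (by rw [homCP_apply, map_one])
  -- the extensions
  have hext : ∀ g a, sumCP (fun b => τ b g) (fun b => hτ1 b g) (ι a) = sumHom σ (α g a) := by
    intro g a
    exact sumCP_eq_sumHom _ _ σ (ι a) (α g a) (fun b => hτι b g a)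
  set tt : G → (I →CP (lp K 2 →L[ℂ] lp K 2)) := fun g => sumCP (fun b => τ b g) (fun b => hτ1 b g)
    with htt
  have hext' : ∀ g a, tt g (ι a) = sumHom σ (α g a) := hext
  have hrig : ∀ g x, θ (tt g x) = β g x := by
    intro g x
    have h1 := hι.rigid (compCP θ (compCP (tt g) (homCP ((β g⁻¹ : I ≃⋆ₐ[ℂ] I) : I →⋆ₐ[ℂ] I)))) (by
      intro a
      rw [compCP_apply, compCP_apply, homCP_apply]
      show θ (tt g (β g⁻¹ (ι a))) = ι a
      rw [hβ, hext', ← StarAlgEquiv.mul_apply, ← map_mul, mul_inv_cancel, map_one]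
      exact hθ a) (β g x)
    rw [compCP_apply, compCP_apply, homCP_apply] at h1
    have h2 : ((β g⁻¹ : I ≃⋆ₐ[ℂ] I) : I →⋆ₐ[ℂ] I) (β g x) = x := by
      show β g⁻¹ (β g x) = x
      rw [← StarAlgEquiv.mul_apply, ← map_mul, inv_mul_cancel, map_one]
      rfl
    rw [h2] at h1
    exact h1
  -- multiplicative domain
  have hmd : ∀ g x, θ (star (tt g x) * tt g x) = star (θ (tt g x)) * θ (tt g x) := by
    intro g x
    apply le_antisymm
    · have h1 : θ (star (tt g x) * tt g x) ≤ θ (tt g (star x * x)) :=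
        OrderHomClass.mono θ (schwarz (tt g) (sumCP_one _ _) x)
      rw [hrig] at h1
      rw [hrig]
      refine h1.trans (le_of_eq ?_)
      rw [map_mul, map_star]
    · exact schwarz θ hθ1 _
  have hmd' : ∀ g x, θ (tt g x * star (tt g x)) = θ (tt g x) * star (θ (tt g x)) := by
    intro g x
    have h1 := hmd g (star x)
    simpa only [cp_star, star_star] using h1
  have hmul : ∀ (g h : G) (r x y : I), θ (tt g r * tt 1 x * tt h y) = β g r * x * β h y := by
    intro g h r x y
    rw [map_mul_of_eq θ hθ1 (hmd h y), map_mul_of_eq' θ hθ1 (hmd' g r), hrig, hrig, hrig, map_one]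
    rfl
  -- bound upstairs
  have hup : MB (fun s t => ∑ i, ∑ j, tt (g s) (R i) * tt 1 (X s t i j) * tt (g t) (C j)) c := by
    refine mb_blocks _ (fun a s t => ∑ i, ∑ j, τ a (g s) (R i) * τ a 1 (X s t i j) *
      τ a (g t) (C j)) ?_ hc ?_
    · intro s t x a
      rw [sum_apply, lp.coeFn_sum, Finset.sum_apply, sum_apply]
      refine Finset.sum_congr rfl fun i _ => ?_
      rw [sum_apply, lp.coeFn_sum, Finset.sum_apply, sum_apply]
      refine Finset.sum_congr rfl fun j _ => ?_
      rfl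
    · intro a
      refine local_bound ι π₀ hπ₀ (τ a 1) (hτ1 a 1) (σ a) ?_
        (fun s => ((α (g s) : A ≃⋆ₐ[ℂ] A) : A →⋆ₐ[ℂ] A)) X hc ?_ (fun s => τ a (g s))
        (fun s => hτ1 a (g s)) ?_ R C hR hC
      · intro b
        rw [hτι, map_one]
        rfl
      · intro R' C' hR' hC'
        have h1 := hX R' C' hR' hC'
        simp only [hβ] at h1
        exact h1
      · intro s t S hS x
        exact hτc a (g t) (g s) S hS x
  have hdown := matrix_bound θ hθ1 (StarAlgHom.id ℂ (lp K 2 →L[ℂ] lp K 2)) (fun _ _ h => h)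
    π₀ (fun s t => ∑ i, ∑ j, tt (g s) (R i) * tt 1 (X s t i j) * tt (g t) (C j)) hc hup
  simpa only [map_sum, hmul] using hdown

end Pool.Agent.NormEnv
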