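import Pool.Agent.NormEnv.Local

/-! The reduced crossed product, and matrix entries of its elements. -/

open scoped CStarAlgebra ComplexOrder InnerProductSpace ENNReal Pointwise

namespace Pool.Agent.NormEnv

/-- `(reg, lam)` is the regular covariant representation of `(B, G, β)` attached to the
representation `π` of `B` on `H`.  The isometries `V t : H → L` exhibit the Hilbert space `L` as
`ℓ²(G, H)` (`V t v` is the function equal to `v` at `t` and `0` elsewhere), `reg x` acts by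
`(reg x ξ)(t) = π(β_{t⁻¹}(x)) ξ(t)`, and `lam g` is the translation `(lam g ξ)(t) = ξ(g⁻¹ t)`. -/
structure IsRegular {G : Type*} [Group G] {B : Type*} [CStarAlgebra B]
    {H : Type*} [NormedAddCommGroup H] [InnerProductSpace ℂ H] [CompleteSpace H]
    {L : Type*} [NormedAddCommGroup L] [InnerProductSpace ℂ L] [CompleteSpace L]
    (β : G →* (B ≃⋆ₐ[ℂ] B)) (π : B →⋆ₐ[ℂ] (H →L[ℂ] H)) (V : G → H →ₗᵢ[ℂ] L)
    (reg : B →⋆ₐ[ℂ] (L →L[ℂ] L)) (lam : G → (L →L[ℂ] L)) : Prop where
  hilbertSum : IsHilbertSum ℂ (fun _ : G => H) V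
  reg_apply : ∀ x t v, reg x (V t v) = V t (π (β t⁻¹ x) v)
  lam_apply : ∀ g t v, lam g (V t v) = V (g * t) v

/-- The C*-algebra generated by the ranges of `reg` and `lam`.  If `(reg, lam)` is the regular
covariant representation attached to a faithful `π`, this is the reduced crossed product. -/
noncomputable def crossed {G B 𝓑 : Type*} [CStarAlgebra 𝓑] (reg : B → 𝓑) (lam : G → 𝓑) :
    StarSubalgebra ℂ 𝓑 :=
  (StarAlgebra.adjoin ℂ (Set.range reg ∪ Set.range lam)).topologicalClosure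

section crossed

variable {G : Type*} {H : Type*} [NormedAddCommGroup H] [InnerProductSpace ℂ H] [CompleteSpace H]
  {L : Type*} [NormedAddCommGroup L] [InnerProductSpace ℂ L] [CompleteSpace L]

/-- Matrix entries. -/
noncomputable def Ent (V : G → H →ₗᵢ[ℂ] L) (Y : L →L[ℂ] L) (s t : G) : H →L[ℂ] H :=
  (ContinuousLinearMap.adjoint (V s).toContinuousLinearMap) ∘L Y ∘L
    (V t).toContinuousLinearMap

lemma inner_Ent (V : G → H →ₗᵢ[ℂ] L) (Y : L →L[ℂ] L) (s t : G) (v w : H) :
    ⟪w, Ent V Y s t v⟫_ℂ = ⟪V s w, Y (V t v)⟫_ℂ := by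
  unfold Ent
  rw [ContinuousLinearMap.comp_apply, ContinuousLinearMap.adjoint_inner_right]
  rfl

lemma Ent_add (V : G → H →ₗᵢ[ℂ] L) (Y Z : L →L[ℂ] L) (s t : G) :
    Ent V (Y + Z) s t = Ent V Y s t + Ent V Z s t := by
  ext v
  apply ext_inner_left ℂ
  intro w
  rw [inner_Ent, add_apply, add_apply, inner_add_right, inner_add_right, inner_Ent, inner_Ent]

lemma Ent_smul (V : G → H →ₗᵢ[ℂ] L) (c : ℂ) (Y : L →L[ℂ] L) (s t : G) :
    Ent V (c • Y) s t = c • Ent V Y s t := by
  ext v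
  apply ext_inner_left ℂ
  intro w
  rw [inner_Ent, smul_apply, smul_apply, inner_smul_right, inner_smul_right, inner_Ent]

lemma Ent_zero (V : G → H →ₗᵢ[ℂ] L) (s t : G) : Ent V 0 s t = 0 := by
  ext v
  apply ext_inner_left ℂ
  intro w
  rw [inner_Ent]
  simp

lemma Ent_sum (V : G → H →ₗᵢ[ℂ] L) {κ : Type*} (S : Finset κ) (Y : κ → (L →L[ℂ] L))
    (s t : G) : Ent V (∑ i ∈ S, Y i) s t = ∑ i ∈ S, Ent V (Y i) s t := by
  classical
  induction S using Finset.induction_on with
  | empty => rw [Finset.sum_empty, Finset.sum_empty, Ent_zero]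
  | insert a S ha ih => rw [Finset.sum_insert ha, Finset.sum_insert ha, Ent_add, ih]

lemma Ent_star (V : G → H →ₗᵢ[ℂ] L) (Y : L →L[ℂ] L) (s t : G) :
    Ent V (star Y) s t = star (Ent V Y t s) := by
  rw [ContinuousLinearMap.star_eq_adjoint (Ent V Y t s), ContinuousLinearMap.eq_adjoint_iff]
  intro v w
  rw [inner_Ent, ← inner_conj_symm, inner_Ent, inner_conj_symm,
    ContinuousLinearMap.star_eq_adjoint, ContinuousLinearMap.adjoint_inner_left]

variable {V : G → H →ₗᵢ[ℂ] L} (hV : IsHilbertSum ℂ (fun _ : G => H) V)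
include hV

lemma inner_V_ne {s t : G} (h : s ≠ t) (v w : H) : ⟪V s v, V t w⟫_ℂ = 0 :=
  hV.OrthogonalFamily h v w

lemma hasSum_V (x : L) : ∃ f : G → H, HasSum (fun t => V t (f t)) x := by
  refine ⟨hV.linearIsometryEquiv x, ?_⟩
  have := hV.hasSum_linearIsometryEquiv_symm (hV.linearIsometryEquiv x)
  rwa [LinearIsometryEquiv.symm_apply_apply] at this

lemma eq_of_inner {x y : L} (h : ∀ r w, ⟪V r w, x⟫_ℂ = ⟪V r w, y⟫_ℂ) : x = y := by
  apply ext_inner_left ℂ
  intro z
  obtain ⟨f, hf⟩ := hasSum_V hV z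
  have h1 : Filter.Tendsto (fun F : Finset G => ⟪∑ t ∈ F, V t (f t), x⟫_ℂ) Filter.atTop
      (nhds ⟪z, x⟫_ℂ) := Filter.Tendsto.inner hf tendsto_const_nhds
  have h2 : Filter.Tendsto (fun F : Finset G => ⟪∑ t ∈ F, V t (f t), y⟫_ℂ) Filter.atTop
      (nhds ⟪z, y⟫_ℂ) := Filter.Tendsto.inner hf tendsto_const_nhds
  refine tendsto_nhds_unique h1 (h2.congr fun F => ?_)
  rw [sum_inner, sum_inner]
  exact Finset.sum_congr rfl fun t _ => (h t (f t)).symm

lemma norm_sq_sum_V (F : Finset G) (f : G → H) :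
    ‖∑ t ∈ F, V t (f t)‖ ^ 2 = ∑ t ∈ F, ‖f t‖ ^ 2 :=
  hV.OrthogonalFamily.norm_sum f F

lemma Ent_mul [DecidableEq G] (Y Z : L →L[ℂ] L) (t : G) (S : Finset G)
    (hS : ∀ r, r ∉ S → Ent V Z r t = 0) (s : G) :
    Ent V (Y * Z) s t = ∑ r ∈ S, Ent V Y s r * Ent V Z r t := by
  ext v
  apply ext_inner_left ℂ
  intro w
  have h1 : Z (V t v) = ∑ r ∈ S, V r (Ent V Z r t v) := by
    apply eq_of_inner hV
    intro q u
    rw [inner_sum, ← inner_Ent]
    by_cases hq : q ∈ S
    · rw [Finset.sum_eq_single q]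
      · rw [LinearIsometry.inner_map_map]
      · intro r _ hr
        exact inner_V_ne hV (Ne.symm hr) _ _
      · intro h; exact absurd hq h
    · rw [hS q hq, Finset.sum_eq_zero]
      · simp
      · intro r hr
        exact inner_V_ne hV (by rintro rfl; exact hq hr) _ _
  rw [inner_Ent, mul_apply_eq_comp, h1, map_sum, inner_sum, sum_apply, inner_sum]
  refine Finset.sum_congr rfl fun r _ => ?_
  rw [mul_apply_eq_comp, inner_Ent]

end crossed

section regular

variable {G : Type*} [Group G] {B : Type*} [CStarAlgebra B]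
  {H : Type*} [NormedAddCommGroup H] [InnerProductSpace ℂ H] [CompleteSpace H]
  {L : Type*} [NormedAddCommGroup L] [InnerProductSpace ℂ L] [CompleteSpace L]
  {β : G →* (B ≃⋆ₐ[ℂ] B)} {π : B →⋆ₐ[ℂ] (H →L[ℂ] H)} {V : G → H →ₗᵢ[ℂ] L}
  {reg : B →⋆ₐ[ℂ] (L →L[ℂ] L)} {lam : G → (L →L[ℂ] L)} (h : IsRegular β π V reg lam)
include h

lemma reg_injective (hπ : Function.Injective π) : Function.Injective reg := by
  rw [injective_iff_map_eq_zero]
  intro x hx
  apply (injective_iff_map_eq_zero π).mp hπ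
  ext v
  have h1 := congrArg (fun T : L →L[ℂ] L => T (V 1 v)) hx
  simp only [h.reg_apply, inv_one, map_one] at h1
  have h2 : V 1 (π x v) = 0 := h1
  rw [← norm_eq_zero, LinearIsometry.norm_map, norm_eq_zero] at h2
  rw [h2]
  rfl

variable [DecidableEq G]

lemma Ent_reg (x : B) (s t : G) :
    Ent V (reg x) s t = if s = t then π (β s⁻¹ x) else 0 := by
  ext v
  apply ext_inner_left ℂ
  intro w
  rw [inner_Ent, h.reg_apply]
  by_cases hst : s = t
  · subst hst
    rw [LinearIsometry.inner_map_map, if_pos rfl]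
  · rw [inner_V_ne h.hilbertSum hst, if_neg hst]
    simp

lemma Ent_lam (g s t : G) : Ent V (lam g) s t = if s * t⁻¹ = g then 1 else 0 := by
  ext v
  apply ext_inner_left ℂ
  intro w
  rw [inner_Ent, h.lam_apply]
  by_cases hst : s * t⁻¹ = g
  · have h' : g * t = s := by rw [← hst]; group
    rw [h', LinearIsometry.inner_map_map, if_pos hst]
    rfl
  · have h' : s ≠ g * t := by
      rintro rfl
      apply hst
      group
    rw [inner_V_ne h.hilbertSum h', if_neg hst]
    simp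

lemma Ent_one' (s t : G) : Ent V (1 : L →L[ℂ] L) s t = if s = t then 1 else 0 := by
  have h1 := Ent_reg h (1 : B) s t
  rw [map_one] at h1
  rw [h1]
  simp

/-- Elements of the reduced crossed product have entries in the coefficient algebra. -/
theorem exists_entry (hπ : Function.Injective π) {Y : L →L[ℂ] L}
    (hY : Y ∈ crossed reg lam) (s t : G) : ∃ y, Ent V Y s t = π y := by
  have hclosed : IsClosed {Y : L →L[ℂ] L | Ent V Y s t ∈ Set.range π} := by
    have h1 : IsClosed (Set.range π) :=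
      (NonUnitalStarAlgHom.isometry π hπ).isClosedEmbedding.isClosed_range
    refine h1.preimage ?_
    unfold Ent
    fun_prop
  have hsub : ∀ Y ∈ StarAlgebra.adjoin ℂ (Set.range reg ∪ Set.range lam),
      ∃ S : Finset G, ∀ s t, (∃ y, Ent V Y s t = π y) ∧ (s * t⁻¹ ∉ S → Ent V Y s t = 0) := by
    intro Y hY
    induction hY using StarAlgebra.adjoin_induction with
    | mem Y hY =>
      rcases hY with ⟨x, rfl⟩ | ⟨g, rfl⟩
      · refine ⟨{1}, fun s t => ⟨?_, ?_⟩⟩
        · rw [Ent_reg h]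
          split_ifs
          · exact ⟨_, rfl⟩
          · exact ⟨0, (map_zero π).symm⟩
        · intro hn
          rw [Ent_reg h, if_neg]
          rintro rfl
          simp at hn
      · refine ⟨{g}, fun s t => ⟨?_, ?_⟩⟩
        · rw [Ent_lam h]
          split_ifs
          · exact ⟨1, (map_one π).symm⟩
          · exact ⟨0, (map_zero π).symm⟩
        · intro hn
          rw [Ent_lam h, if_neg]
          simpa using hn
    | algebraMap r =>
      refine ⟨{1}, fun s t => ⟨?_, ?_⟩⟩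
      · rw [Algebra.algebraMap_eq_smul_one, Ent_smul, Ent_one' h]
        split_ifs
        · exact ⟨r • 1, by rw [map_smul, map_one]⟩
        · exact ⟨0, by rw [map_zero, smul_zero]⟩
      · intro hn
        rw [Algebra.algebraMap_eq_smul_one, Ent_smul, Ent_one' h, if_neg, smul_zero]
        rintro rfl
        simp at hn
    | add Y Z _ _ hY hZ =>
      obtain ⟨S, hS⟩ := hY
      obtain ⟨S', hS'⟩ := hZ
      refine ⟨S ∪ S', fun s t => ⟨?_, ?_⟩⟩
      · obtain ⟨y, hy⟩ := (hS s t).1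
        obtain ⟨z, hz⟩ := (hS' s t).1
        exact ⟨y + z, by rw [Ent_add, hy, hz, map_add]⟩
      · intro hn
        rw [Finset.notMem_union] at hn
        rw [Ent_add, (hS s t).2 hn.1, (hS' s t).2 hn.2, add_zero]
    | mul Y Z _ _ hY hZ =>
      obtain ⟨S, hS⟩ := hY
      obtain ⟨S', hS'⟩ := hZ
      have hfin : ∀ t r, r ∉ S'.image (fun q => q * t) → Ent V Z r t = 0 := by
        intro t r hr
        apply (hS' r t).2
        intro hn
        apply hr
        rw [Finset.mem_image]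
        exact ⟨r * t⁻¹, hn, by group⟩
      refine ⟨S * S', fun s t => ⟨?_, ?_⟩⟩
      · choose y hy using fun r => (hS s r).1
        choose z hz using fun r => (hS' r t).1
        refine ⟨∑ r ∈ S'.image (fun q => q * t), y r * z r, ?_⟩
        rw [Ent_mul h.hilbertSum Y Z t _ (hfin t), map_sum]
        refine Finset.sum_congr rfl fun r _ => ?_
        rw [hy, hz, map_mul]
      · intro hn
        rw [Ent_mul h.hilbertSum Y Z t _ (hfin t)]
        refine Finset.sum_eq_zero fun r _ => ?_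
        by_cases h1 : s * r⁻¹ ∈ S
        · by_cases h2 : r * t⁻¹ ∈ S'
          · exfalso
            apply hn
            have h3 : s * t⁻¹ = (s * r⁻¹) * (r * t⁻¹) := by group
            rw [h3]
            exact Finset.mul_mem_mul h1 h2
          · rw [(hS' r t).2 h2, mul_zero]
        · rw [(hS s r).2 h1, zero_mul]
    | star Y _ hY =>
      obtain ⟨S, hS⟩ := hY
      refine ⟨S⁻¹, fun s t => ⟨?_, ?_⟩⟩
      · obtain ⟨y, hy⟩ := (hS t s).1
        exact ⟨star y, by rw [Ent_star, hy, map_star]⟩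
      · intro hn
        rw [Ent_star, (hS t s).2, star_zero]
        intro h2
        apply hn
        rw [Finset.mem_inv]
        exact ⟨_, h2, by group⟩
  have hY' : Y ∈ closure (StarAlgebra.adjoin ℂ (Set.range reg ∪ Set.range lam) :
      Set (L →L[ℂ] L)) := hY
  have h2 := closure_minimal (s := (StarAlgebra.adjoin ℂ (Set.range reg ∪ Set.range lam) :
      Set (L →L[ℂ] L))) (t := {Y | Ent V Y s t ∈ Set.range π}) (fun Z hZ => by
        obtain ⟨S, hS⟩ := hsub Z hZ
        obtain ⟨y, hy⟩ := (hS s t).1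
        exact ⟨y, hy.symm⟩) hclosed hY'
  obtain ⟨y, hy⟩ := h2
  exact ⟨y, hy.symm⟩

omit [DecidableEq G] in
/-- Entries of `reg r * Y * reg q`. -/
lemma Ent_conj (r q : B) (Y : L →L[ℂ] L) (s t : G) :
    Ent V (reg r * Y * reg q) s t = π (β s⁻¹ r) * Ent V Y s t * π (β t⁻¹ q) := by
  ext v
  apply ext_inner_left ℂ
  intro w
  have h1 : ⟪V s w, reg r (Y (reg q (V t v)))⟫_ℂ = ⟪reg (star r) (V s w), Y (reg q (V t v))⟫_ℂ := by
    rw [map_star, ContinuousLinearMap.star_eq_adjoint, ContinuousLinearMap.adjoint_inner_left]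
  have h2 : ⟪w, π (β s⁻¹ r) (Ent V Y s t (π (β t⁻¹ q) v))⟫_ℂ =
      ⟪π (β s⁻¹ (star r)) w, Ent V Y s t (π (β t⁻¹ q) v)⟫_ℂ := by
    rw [map_star, map_star, ContinuousLinearMap.star_eq_adjoint,
      ContinuousLinearMap.adjoint_inner_left]
  rw [inner_Ent, mul_apply_eq_comp, mul_apply_eq_comp, mul_apply_eq_comp, mul_apply_eq_comp, h1, h2,
    h.reg_apply, h.reg_apply, inner_Ent]

end regular

section bounds

variable {G : Type*} {H : Type*} [NormedAddCommGroup H] [InnerProductSpace ℂ H] [CompleteSpace H]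
  {L : Type*} [NormedAddCommGroup L] [InnerProductSpace ℂ L] [CompleteSpace L]
  {V : G → H →ₗᵢ[ℂ] L} (hV : IsHilbertSum ℂ (fun _ : G => H) V)
include hV

omit hV in
lemma inner_sum_V (V : G → H →ₗᵢ[ℂ] L) (Y : L →L[ℂ] L) (F : Finset G) (f f' : G → H) :
    ⟪∑ s ∈ F, V s (f' s), Y (∑ t ∈ F, V t (f t))⟫_ℂ =
      ∑ s ∈ F, ∑ t ∈ F, ⟪f' s, Ent V Y s t (f t)⟫_ℂ := by
  rw [sum_inner]
  refine Finset.sum_congr rfl fun s _ => ?_
  rw [map_sum, inner_sum]
  refine Finset.sum_congr rfl fun t _ => ?_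
  rw [inner_Ent]

/-- Finite corners of a bounded operator. -/
theorem mb_of_norm_le (Y : L →L[ℂ] L) {c : ℝ}
    (hY : ‖Y‖ ≤ c) (F : Finset G) : MB (fun s t : F => Ent V Y s t) c := by
  classical
  intro ξ η
  set f : G → H := fun t => if h : t ∈ F then ξ ⟨t, h⟩ else 0 with hf
  set f' : G → H := fun t => if h : t ∈ F then η ⟨t, h⟩ else 0 with hf'
  have hfc : ∀ t : F, f t = ξ t := fun t => by simp [hf]
  have hfc' : ∀ t : F, f' t = η t := fun t => by simp [hf']
  have h1 : ∑ s : F, ∑ t : F, ⟪η s, Ent V Y s t (ξ t)⟫_ℂ =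
      ⟪∑ s ∈ F, V s (f' s), Y (∑ t ∈ F, V t (f t))⟫_ℂ := by
    rw [inner_sum_V, ← Finset.sum_coe_sort F]
    refine Finset.sum_congr rfl fun s _ => ?_
    rw [← Finset.sum_coe_sort F]
    refine Finset.sum_congr rfl fun t _ => ?_
    rw [hfc, hfc']
  have h2 : ∑ t : F, ‖ξ t‖ ^ 2 = ‖∑ t ∈ F, V t (f t)‖ ^ 2 := by
    rw [norm_sq_sum_V hV, ← Finset.sum_coe_sort F]
    exact Finset.sum_congr rfl fun t _ => by rw [hfc]
  have h3 : ∑ t : F, ‖η t‖ ^ 2 = ‖∑ t ∈ F, V t (f' t)‖ ^ 2 := by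
    rw [norm_sq_sum_V hV, ← Finset.sum_coe_sort F]
    exact Finset.sum_congr rfl fun t _ => by rw [hfc']
  rw [h1, h2, h3, Real.sqrt_sq (norm_nonneg _), Real.sqrt_sq (norm_nonneg _)]
  set x := ∑ t ∈ F, V t (f t)
  set y := ∑ t ∈ F, V t (f' t)
  calc ‖⟪y, Y x⟫_ℂ‖ ≤ ‖y‖ * ‖Y x‖ := norm_inner_le_norm _ _
    _ ≤ ‖y‖ * (c * ‖x‖) := by
        gcongr
        exact (Y.le_opNorm x).trans (by gcongr)
    _ = c * ‖x‖ * ‖y‖ := by ring

/-- An operator whose finite corners are bounded is bounded. -/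
theorem norm_le_of_mb (Y : L →L[ℂ] L) {c : ℝ}
    (hc : 0 ≤ c) (h : ∀ F : Finset G, MB (fun s t : F => Ent V Y s t) c) : ‖Y‖ ≤ c := by
  classical
  have key : ∀ x y : L, ‖⟪y, Y x⟫_ℂ‖ ≤ c * ‖x‖ * ‖y‖ := by
    intro x y
    obtain ⟨f, hx⟩ := hasSum_V hV x
    obtain ⟨f', hy⟩ := hasSum_V hV y
    refine le_of_tendsto_of_tendsto' (b := Filter.atTop)
      (f := fun F : Finset G => ‖⟪∑ s ∈ F, V s (f' s), Y (∑ t ∈ F, V t (f t))⟫_ℂ‖)
      (g := fun F : Finset G => c * ‖∑ t ∈ F, V t (f t)‖ * ‖∑ s ∈ F, V s (f' s)‖) ?_ ?_ ?_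
    · exact (Filter.Tendsto.inner hy ((Y.continuous.tendsto _).comp hx)).norm
    · exact (hx.norm.const_mul c).mul hy.norm
    · intro F
      have h1 := h F (fun t => f t) (fun s => f' s)
      rw [inner_sum_V]
      have h2 : ∀ f : G → H, √(∑ t : F, ‖f t‖ ^ 2) = ‖∑ t ∈ F, V t (f t)‖ := by
        intro f
        rw [Finset.sum_coe_sort F (fun t => ‖f t‖ ^ 2), ← norm_sq_sum_V hV,
          Real.sqrt_sq (norm_nonneg _)]
      have h4 : ∑ s : F, ∑ t : F, ⟪f' s, Ent V Y s t (f t)⟫_ℂ =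
          ∑ s ∈ F, ∑ t ∈ F, ⟪f' s, Ent V Y s t (f t)⟫_ℂ := by
        rw [← Finset.sum_coe_sort F]
        refine Finset.sum_congr rfl fun s _ => ?_
        rw [← Finset.sum_coe_sort F]
      rw [← h4, ← h2, ← h2]
      exact h1
  refine ContinuousLinearMap.opNorm_le_bound _ hc fun x => ?_
  by_cases hYx : ‖Y x‖ = 0
  · rw [hYx]
    positivity
  have h1 := key x (Y x)
  have h2 : ‖⟪Y x, Y x⟫_ℂ‖ = ‖Y x‖ * ‖Y x‖ := by
    rw [inner_self_eq_norm_sq_to_K]
    simp [sq]
  rw [h2] at h1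
  have h3 : 0 < ‖Y x‖ := lt_of_le_of_ne (norm_nonneg _) (Ne.symm hYx)
  exact le_of_mul_le_mul_right h1 h3

end bounds

section model

variable {G : Type*} [Group G] {B : Type*} [CStarAlgebra B]
  {H : Type*} [NormedAddCommGroup H]

lemma trans_mem (g : G) (ξ : lp (fun _ : G => H) 2) :
    Memℓp (fun t : G => ξ (g⁻¹ * t)) 2 := by
  have h1 := (lp.memℓp ξ).summable (by norm_num)
  apply memℓp_gen
  exact ((Equiv.mulLeft g⁻¹).summable_iff (f := fun t => ‖ξ t‖ ^ (2 : ℝ≥0∞).toReal)).mpr h1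

variable [InnerProductSpace ℂ H]

variable (H) in
/-- The translation `(λ_g ξ)(t) = ξ(g⁻¹ t)` on `ℓ²(G, H)`. -/
noncomputable def trans (g : G) : lp (fun _ : G => H) 2 →L[ℂ] lp (fun _ : G => H) 2 :=
  LinearMap.mkContinuous
    { toFun := fun ξ => ⟨fun t => ξ (g⁻¹ * t), trans_mem g ξ⟩
      map_add' := by
        intro x y
        apply lp.ext
        funext j
        simp
      map_smul' := by
        intro c x
        apply lp.ext
        funext j
        simp }
    1 (by
      intro x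
      rw [one_mul]
      refine lp.norm_le_of_tsum_le (by norm_num) (norm_nonneg _) ?_
      rw [lp.norm_rpow_eq_tsum (by norm_num) x]
      exact ((Equiv.mulLeft g⁻¹).tsum_eq (fun t => ‖x t‖ ^ (2 : ℝ≥0∞).toReal)).le)

/-- The vector `v` placed at `t`. -/
noncomputable def place [DecidableEq G] (t : G) : H →ₗᵢ[ℂ] lp (fun _ : G => H) 2 where
  toLinearMap := lp.lsingle (E := fun _ : G => H) (𝕜 := ℂ) 2 t
  norm_map' v := lp.norm_single (E := fun _ : G => H) (p := 2) (by norm_num) t v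

lemma place_apply [DecidableEq G] (t : G) (v : H) :
    (place t v : lp (fun _ : G => H) 2) = lp.single 2 t v := rfl

lemma isHilbertSum_place [CompleteSpace H] [DecidableEq G] :
    IsHilbertSum ℂ (fun _ : G => H) (fun t => place (H := H) t) := by
  have h1 : OrthogonalFamily ℂ (fun _ : G => H) (fun t => place (H := H) t) := by
    intro s t hst v w
    rw [place_apply, place_apply, lp.inner_single_left, lp.single_apply_ne _ _ _ hst,
      inner_zero_right]
  refine IsHilbertSum.ofSurjective h1 fun f => ⟨f, ?_⟩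
  rw [h1.linearIsometry_apply]
  exact (lp.hasSum_single (E := fun _ : G => H) (p := 2) (by norm_num) f).tsum_eq

/-- The regular covariant representation exists: `L = ℓ²(G, H)` is a model. -/
theorem exists_isRegular [CompleteSpace H] [DecidableEq G] (β : G →* (B ≃⋆ₐ[ℂ] B))
    (π : B →⋆ₐ[ℂ] (H →L[ℂ] H)) :
    IsRegular β π (fun t => place t)
      (sumHom (fun t : G => π.comp ((β t⁻¹ : B ≃⋆ₐ[ℂ] B) : B →⋆ₐ[ℂ] B))) (trans H) where
  hilbertSum := isHilbertSum_place
  reg_apply x t v := by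
    apply lp.ext
    funext s
    rw [sumHom_apply, place_apply, place_apply]
    by_cases h : s = t
    · subst h
      rw [lp.single_apply_self, lp.single_apply_self]
      rfl
    · rw [lp.single_apply_ne _ _ _ h, lp.single_apply_ne _ _ _ h, map_zero]
  lam_apply g t v := by
    apply lp.ext
    funext s
    change (place t v : lp (fun _ : G => H) 2) (g⁻¹ * s) = _
    rw [place_apply, place_apply]
    by_cases h : s = g * t
    · subst h
      rw [inv_mul_cancel_left, lp.single_apply_self, lp.single_apply_self]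
    · have h' : g⁻¹ * s ≠ t := by
        rintro rfl
        apply h
        group
      rw [lp.single_apply_ne _ _ _ h, lp.single_apply_ne _ _ _ h']

end model

end Pool.Agent.NormEnv
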