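import Pool.Agent.NormEnv.CP

/-! The density lemma (a bicommutant argument) and consistent families of extensions. -/

open scoped CStarAlgebra ComplexOrder InnerProductSpace

namespace Pool.Agent.NormEnv

universe u v

section dense

variable {K : Type*} [NormedAddCommGroup K] [InnerProductSpace ℂ K]
  {F : Type*} [Fintype F]

/-- Diagonal operators on `K^F`. -/
noncomputable def dg (T : F → (K →L[ℂ] K)) :
    PiLp 2 (fun _ : F => K) →L[ℂ] PiLp 2 (fun _ : F => K) :=
  ((PiLp.continuousLinearEquiv 2 ℂ (fun _ : F => K)).symm : (F → K) →L[ℂ] PiLp 2 (fun _ : F => K)) ∘L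
    (ContinuousLinearMap.pi fun i => (T i) ∘L (ContinuousLinearMap.proj i)) ∘L
    (PiLp.continuousLinearEquiv 2 ℂ (fun _ : F => K) : PiLp 2 (fun _ : F => K) →L[ℂ] (F → K))

lemma dg_apply (T : F → (K →L[ℂ] K)) (ζ : PiLp 2 (fun _ : F => K)) (i : F) :
    dg T ζ i = T i (ζ i) := by
  simp [dg]

/-- The matrix entries of an operator on `K^F`. -/
noncomputable def ent [DecidableEq F] (P : PiLp 2 (fun _ : F => K) →L[ℂ] PiLp 2 (fun _ : F => K)) (i j : F) :
    K →L[ℂ] K :=
  (ContinuousLinearMap.proj i) ∘L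
    (PiLp.continuousLinearEquiv 2 ℂ (fun _ : F => K) : PiLp 2 (fun _ : F => K) →L[ℂ] (F → K)) ∘L P ∘L
    ((PiLp.continuousLinearEquiv 2 ℂ (fun _ : F => K)).symm : (F → K) →L[ℂ] PiLp 2 (fun _ : F => K)) ∘L
    (ContinuousLinearMap.single ℂ (fun _ : F => K) j)

lemma ent_apply [DecidableEq F] (P : PiLp 2 (fun _ : F => K) →L[ℂ] PiLp 2 (fun _ : F => K)) (i j : F)
    (x : K) : ent P i j x = P (PiLp.single 2 j x) i := by
  simp [ent]

lemma sum_single [DecidableEq F] (ζ : PiLp 2 (fun _ : F => K)) :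
    ∑ j, PiLp.single 2 j (ζ j) = ζ := by
  ext i
  simp

lemma apply_eq_sum_ent [DecidableEq F] (P : PiLp 2 (fun _ : F => K) →L[ℂ] PiLp 2 (fun _ : F => K))
    (ζ : PiLp 2 (fun _ : F => K)) (i : F) : P ζ i = ∑ j, ent P i j (ζ j) := by
  conv_lhs => rw [← sum_single ζ]
  simp [ent_apply, map_sum]

end dense

theorem dense_lemma {A : Type*} [CStarAlgebra A] {F : Type*} [Fintype F] [DecidableEq F]
    {K : Type*} [NormedAddCommGroup K] [InnerProductSpace ℂ K] [CompleteSpace K]
    (σ : F → (A →⋆ₐ[ℂ] (K →L[ℂ] K))) (T : F → (K →L[ℂ] K))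
    (hT : ∀ s t (S : K →L[ℂ] K), (∀ a, S * σ t a = σ s a * S) → S * T t = T s * S)
    (ξ : F → K) {ε : ℝ} (hε : 0 < ε) :
    ∃ a : A, ∀ t, ‖σ t a (ξ t) - T t (ξ t)‖ < ε := by
  set x : PiLp 2 (fun _ : F => K) := WithLp.toLp 2 ξ with hx
  let lin : A →ₗ[ℂ] PiLp 2 (fun _ : F => K) :=
    { toFun := fun a => dg (fun t => σ t a) x
      map_add' := by
        intro a b
        ext t
        simp [dg_apply]
      map_smul' := by
        intro c a
        ext t
        simp [dg_apply] }
  set L : Submodule ℂ (PiLp 2 (fun _ : F => K)) := (LinearMap.range lin).topologicalClosure with hL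
  have hLc : IsClosed (L : Set (PiLp 2 (fun _ : F => K))) := Submodule.isClosed_topologicalClosure _
  haveI : CompleteSpace L := hLc.completeSpace_coe
  have hinv : ∀ (a : A) (y : PiLp 2 (fun _ : F => K)), y ∈ L → dg (fun t => σ t a) y ∈ L := by
    intro a y hy
    have h1 : Set.MapsTo (dg (fun t => σ t a)) (LinearMap.range lin : Set (PiLp 2 (fun _ : F => K)))
        (LinearMap.range lin : Set (PiLp 2 (fun _ : F => K))) := by
      rintro _ ⟨b, rfl⟩
      refine ⟨a * b, ?_⟩
      ext t
      simp [lin, dg_apply, map_mul, mul_apply_eq_comp]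
    have h2 := h1.closure (dg (fun t => σ t a)).continuous
    exact h2 hy
  have hadj : ∀ (a : A) (y z : PiLp 2 (fun _ : F => K)), ⟪dg (fun t => σ t a) y, z⟫_ℂ =
      ⟪y, dg (fun t => σ t (star a)) z⟫_ℂ := by
    intro a y z
    simp only [PiLp.inner_apply, dg_apply, map_star, ContinuousLinearMap.star_eq_adjoint,
      ContinuousLinearMap.adjoint_inner_right]
  set P := L.starProjection with hP
  have hcomm : ∀ (a : A) (y : PiLp 2 (fun _ : F => K)), P (dg (fun t => σ t a) y) = dg (fun t => σ t a) (P y) := by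
    intro a y
    rw [hP]
    apply Submodule.eq_starProjection_of_mem_of_inner_eq_zero
    · exact hinv a _ (Submodule.starProjection_apply_mem L y)
    · intro w hw
      rw [← map_sub, hadj]
      exact Submodule.starProjection_inner_eq_zero y _ (hinv _ w hw)
  have hent : ∀ s t, ent P s t * T t = T s * ent P s t := by
    intro s t
    apply hT
    intro a
    ext y
    rw [mul_apply_eq_comp, mul_apply_eq_comp, ent_apply, ent_apply]
    have h1 : (PiLp.single 2 t (σ t a y) : PiLp 2 (fun _ : F => K)) = dg (fun t => σ t a) (PiLp.single 2 t y) := by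
      ext i
      rw [dg_apply]
      by_cases h : i = t
      · subst h; simp
      · simp [h]
    rw [h1, hcomm, dg_apply]
  have hPT : P (dg T x) = dg T (P x) := by
    ext s
    rw [apply_eq_sum_ent, dg_apply, apply_eq_sum_ent, map_sum]
    refine Finset.sum_congr rfl fun t _ => ?_
    rw [dg_apply]
    have := congrArg (fun S : K →L[ℂ] K => S (x t)) (hent s t)
    simpa [mul_apply_eq_comp] using this
  have hxL : x ∈ L := by
    apply Submodule.le_topologicalClosure
    refine ⟨1, ?_⟩
    ext t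
    simp [lin, dg_apply]
  have hPx : P x = x := Submodule.starProjection_eq_self_iff.mpr hxL
  have hTL : dg T x ∈ L := by
    rw [← Submodule.starProjection_eq_self_iff, ← hP, hPT, hPx]
  have hcl : dg T x ∈ closure (LinearMap.range lin : Set (PiLp 2 (fun _ : F => K))) := hTL
  obtain ⟨_, ⟨a, rfl⟩, ha⟩ := Metric.mem_closure_iff.mp hcl ε hε
  refine ⟨a, fun t => ?_⟩
  have h1 : ‖(lin a - dg T x) t‖ ≤ ‖lin a - dg T x‖ := PiLp.norm_apply_le _ t
  have h2 : ‖lin a - dg T x‖ < ε := by rwa [← dist_eq_norm, dist_comm]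
  have h3 : (lin a - dg T x) t = σ t a (ξ t) - T t (ξ t) := by
    simp [lin, dg_apply, hx]
  rw [← h3]
  exact lt_of_le_of_lt h1 h2

section consistent

variable {A I : Type*} [CStarAlgebra A] [CStarAlgebra I] [PartialOrder I] [StarOrderedRing I]
  {K : Type*} [NormedAddCommGroup K] [InnerProductSpace ℂ K] [CompleteSpace K]

/-- A nonzero intertwiner between representations with trivial commutants is a multiple of a
unitary. -/
lemma exists_unitary_of_intertwiner (σ₁ σ₂ : A →⋆ₐ[ℂ] (K →L[ℂ] K))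
    (h₁ : ∀ S : K →L[ℂ] K, (∀ a, S * σ₁ a = σ₁ a * S) → ∃ c : ℂ, S = c • 1)
    (h₂ : ∀ S : K →L[ℂ] K, (∀ a, S * σ₂ a = σ₂ a * S) → ∃ c : ℂ, S = c • 1)
    (S : K →L[ℂ] K) (hS : ∀ a, S * σ₁ a = σ₂ a * S) (hS0 : S ≠ 0) :
    ∃ U : K →L[ℂ] K, star U * U = 1 ∧ U * star U = 1 ∧ ∀ a, U * σ₁ a = σ₂ a * U := by
  have hS' : ∀ a, star S * σ₂ a = σ₁ a * star S := by
    intro a
    have h := congrArg star (hS (star a))
    simpa [map_star] using h.symm
  obtain ⟨c, hc⟩ := h₁ (star S * S) (by
    intro a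
    rw [mul_assoc, hS, ← mul_assoc, hS', mul_assoc])
  obtain ⟨d, hd⟩ := h₂ (S * star S) (by
    intro a
    rw [mul_assoc, hS', ← mul_assoc, hS, mul_assoc])
  have hcd : c = d := by
    have e1 : S * (star S * S) = c • S := by rw [hc, mul_smul_comm, mul_one]
    have e2 : S * (star S * S) = d • S := by rw [← mul_assoc, hd, smul_mul_assoc, one_mul]
    have e3 : (c - d) • S = 0 := by rw [sub_smul, ← e1, ← e2, sub_self]
    rcases smul_eq_zero.mp e3 with h | h
    · exact sub_eq_zero.mp h
    · exact absurd h hS0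
  subst hcd
  obtain ⟨v, hv⟩ : ∃ v, S v ≠ 0 := by
    by_contra h
    push Not at h
    exact hS0 (ContinuousLinearMap.ext h)
  have hv0 : v ≠ 0 := by
    rintro rfl
    exact hv (map_zero S)
  have hin : ⟪v, (star S * S) v⟫_ℂ = (‖S v‖ : ℂ) ^ 2 := by
    rw [mul_apply_eq_comp, ContinuousLinearMap.star_eq_adjoint,
      ContinuousLinearMap.adjoint_inner_right, inner_self_eq_norm_sq_to_K]
    rfl
  have hin2 : ⟪v, (star S * S) v⟫_ℂ = c * (‖v‖ : ℂ) ^ 2 := by
    rw [hc, smul_apply, one_apply_eq_self, inner_smul_right, inner_self_eq_norm_sq_to_K]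
    rfl
  set r : ℝ := ‖S v‖ / ‖v‖ with hr
  have hr0 : 0 < r := div_pos (norm_pos_iff.mpr hv) (norm_pos_iff.mpr hv0)
  have hcr : c = ((r ^ 2 : ℝ) : ℂ) := by
    have h1 : (‖v‖ : ℂ) ≠ 0 := by exact_mod_cast (norm_ne_zero_iff.mpr hv0)
    have h2 : c * (‖v‖ : ℂ) ^ 2 = (‖S v‖ : ℂ) ^ 2 := by rw [← hin2, hin]
    rw [hr]
    push_cast
    rw [div_pow, eq_div_iff (pow_ne_zero 2 h1), h2]
  have hrc : ((r⁻¹ : ℝ) : ℂ) * ((r⁻¹ : ℝ) : ℂ) * c = 1 := by
    rw [hcr]
    push_cast
    have : (r : ℂ) ≠ 0 := by exact_mod_cast hr0.ne'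
    field_simp
  refine ⟨((r⁻¹ : ℝ) : ℂ) • S, ?_, ?_, ?_⟩
  · rw [star_smul, Complex.star_def, Complex.conj_ofReal, smul_mul_assoc, mul_smul_comm, smul_smul,
      hc, smul_smul, hrc, one_smul]
  · rw [star_smul, Complex.star_def, Complex.conj_ofReal, smul_mul_assoc, mul_smul_comm, smul_smul,
      hd, smul_smul, hrc, one_smul]
  · intro a
    rw [smul_mul_assoc, hS, mul_smul_comm]

/-- Conjugating a completely positive map. -/
noncomputable def conjCP (T : I →CP (K →L[ℂ] K)) (U : K →L[ℂ] K) : I →CP (K →L[ℂ] K) where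
  toFun x := star U * T x * U
  map_add' x y := by simp [mul_add, add_mul]
  map_smul' c x := by simp
  map_cstarMatrix_nonneg' k M hM := by
    apply nonneg_of_forall_inner
    intro ζ
    have h1 := T.map_cstarMatrix_nonneg M hM
    have h2 := inner_nonneg_of_nonneg _ h1 (fun i => U (ζ i))
    have h3 : ∀ i j, ⟪ζ i, (M.map fun x => star U * T x * U) i j (ζ j)⟫_ℂ =
        ⟪U (ζ i), (M.map T) i j (U (ζ j))⟫_ℂ := by
      intro i j
      rw [CStarMatrix.map_apply, CStarMatrix.map_apply, mul_apply_eq_comp, mul_apply_eq_comp,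
        ContinuousLinearMap.star_eq_adjoint, ContinuousLinearMap.adjoint_inner_right]
    have h4 : ∑ i, ∑ j, ⟪ζ i, (M.map fun x => star U * T x * U) i j (ζ j)⟫_ℂ =
        ∑ i, ∑ j, ⟪U (ζ i), (M.map T) i j (U (ζ j))⟫_ℂ :=
      Finset.sum_congr rfl fun i _ => Finset.sum_congr rfl fun j _ => h3 i j
    rw [← h4] at h2
    exact h2

lemma conjCP_apply (T : I →CP (K →L[ℂ] K)) (U : K →L[ℂ] K) (x : I) :
    conjCP T U x = star U * T x * U := rfl

/-- Consistent extensions. -/
theorem exists_consistent {G : Type*} (ι : A →⋆ₐ[ℂ] I) (σ : G → (A →⋆ₐ[ℂ] (K →L[ℂ] K)))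
    (hσ : ∀ g (S : K →L[ℂ] K), (∀ a, S * σ g a = σ g a * S) → ∃ c : ℂ, S = c • 1)
    (T : G → (I →CP (K →L[ℂ] K))) (hT : ∀ g a, T g (ι a) = σ g a) :
    ∃ τ : G → (I →CP (K →L[ℂ] K)), (∀ g a, τ g (ι a) = σ g a) ∧
      ∀ g h (S : K →L[ℂ] K), (∀ a, S * σ g a = σ h a * S) →
        ∀ x, S * τ g x = τ h x * S := by
  classical
  let r : Setoid G :=
    { r := fun g h => ∃ U : K →L[ℂ] K, star U * U = 1 ∧ U * star U = 1 ∧
        ∀ a, U * σ g a = σ h a * U
      iseqv :=
        { refl := fun g => ⟨1, by simp, by simp, fun a => by simp⟩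
          symm := by
            rintro g h ⟨U, h1, h2, h3⟩
            refine ⟨star U, by simpa using h2, by simpa using h1, fun a => ?_⟩
            have := congrArg star (h3 (star a))
            simpa [map_star] using this.symm
          trans := by
            rintro g h k ⟨U, h1, h2, h3⟩ ⟨V, h4, h5, h6⟩
            refine ⟨V * U, ?_, ?_, fun a => ?_⟩
            · rw [star_mul, mul_assoc, ← mul_assoc (star V), h4, one_mul, h1]
            · rw [star_mul, mul_assoc, ← mul_assoc U, h2, one_mul, h5]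
            · rw [mul_assoc, h3, ← mul_assoc, h6, mul_assoc] } }
  have hr : ∀ g : G, ∃ U : K →L[ℂ] K, star U * U = 1 ∧ U * star U = 1 ∧
      ∀ a, U * σ g a = σ (Quotient.out (Quotient.mk r g)) a * U := by
    intro g
    exact r.symm (Quotient.mk_out (s := r) g)
  choose U hU1 hU2 hU3 using hr
  refine ⟨fun g => conjCP (T (Quotient.out (Quotient.mk r g))) (U g), ?_, ?_⟩
  · intro g a
    rw [conjCP_apply, hT, mul_assoc, ← hU3, ← mul_assoc, hU1, one_mul]
  · intro g h S hS x
    by_cases hS0 : S = 0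
    · simp [hS0]
    obtain ⟨V, hV⟩ := exists_unitary_of_intertwiner (σ g) (σ h) (hσ g) (hσ h) S hS hS0
    have hgh : Quotient.mk r g = Quotient.mk r h := Quotient.sound ⟨V, hV⟩
    have hout : Quotient.out (Quotient.mk r g) = Quotient.out (Quotient.mk r h) := by rw [hgh]
    simp only [conjCP_apply]
    have hUg := hU3 g
    rw [hout] at hUg ⊢
    set k := Quotient.out (Quotient.mk r h) with hk
    have hUh := hU3 h
    rw [← hk] at hUh
    have hUg' : ∀ a, star (U g) * σ k a = σ g a * star (U g) := by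
      intro a
      have := congrArg star (hUg (star a))
      simpa [map_star] using this.symm
    obtain ⟨c, hc⟩ := hσ k (U h * S * star (U g)) (by
      intro a
      calc U h * S * star (U g) * σ k a = U h * (S * (star (U g) * σ k a)) := by
            simp only [mul_assoc]
        _ = U h * (S * σ g a * star (U g)) := by rw [hUg', mul_assoc]
        _ = U h * σ h a * (S * star (U g)) := by rw [hS]; simp only [mul_assoc]
        _ = σ k a * (U h * S * star (U g)) := by rw [hUh]; simp only [mul_assoc])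
    have hS2 : S = c • (star (U h) * U g) := by
      calc S = (star (U h) * U h) * S * (star (U g) * U g) := by
            rw [hU1 h, hU1 g, one_mul, mul_one]
        _ = star (U h) * (U h * S * star (U g)) * U g := by simp only [mul_assoc]
        _ = c • (star (U h) * U g) := by
            rw [hc, mul_smul_comm, smul_mul_assoc, mul_one]
    rw [hS2]
    simp only [smul_mul_assoc, mul_smul_comm]
    congr 1
    calc star (U h) * U g * (star (U g) * T k x * U g) =
        star (U h) * (U g * star (U g)) * T k x * U g := by simp only [mul_assoc]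
      _ = star (U h) * T k x * U g := by rw [hU2 g, mul_one]
      _ = star (U h) * T k x * (U h * star (U h)) * U g := by rw [hU2 h, mul_one]
      _ = star (U h) * T k x * U h * (star (U h) * U g) := by simp only [mul_assoc]

end consistent

end Pool.Agent.NormEnv
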