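import Pool.Agent.NormEnv.Sums

/-! The local estimate. -/

open scoped CStarAlgebra ComplexOrder InnerProductSpace ENNReal

namespace Pool.Agent.NormEnv

section normalise

variable {A : Type*} [CStarAlgebra A] [PartialOrder A] [StarOrderedRing A]
  {κ : Type*} [Fintype κ]

lemma exists_normaliser (C : κ → A) {δ : ℝ} (hδ : 0 < δ) :
    ∃ b b' : A, star b = b ∧ star b' = b' ∧ b * b' = 1 ∧ b' * b = 1 ∧
      b * b = (∑ j, star (C j) * C j) + (δ : ℂ) • (1 : A) ∧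
      ∑ j, star (C j * b') * (C j * b') ≤ 1 := by
  set c0 : A := (∑ j, star (C j) * C j) + (δ : ℂ) • (1 : A) with hc0
  have h1 : 0 ≤ ∑ j, star (C j) * C j := Finset.sum_nonneg fun j _ => star_mul_self_nonneg _
  have h2 : (0 : A) ≤ (δ : ℂ) • (1 : A) := by
    rw [Complex.coe_smul]
    exact smul_nonneg hδ.le zero_le_one
  have h3 : 0 ≤ c0 := add_nonneg h1 h2
  have hsp : IsStrictlyPositive ((δ : ℂ) • (1 : A)) := by
    rw [Complex.coe_smul]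
    exact IsStrictlyPositive.smul hδ isStrictlyPositive_one
  have h4 : IsUnit c0 := (IsStrictlyPositive.nonneg_add h1 hsp).isUnit
  set b := CFC.sqrt c0 with hb
  have hbb : b * b = c0 := CFC.sqrt_mul_sqrt_self c0 h3
  have hb0 : 0 ≤ b := CFC.sqrt_nonneg c0
  have hbs : star b = b := (IsSelfAdjoint.of_nonneg hb0).star_eq
  obtain ⟨v, hv⟩ := h4
  set w : A := ((v⁻¹ : Aˣ) : A) with hw
  have hvw : c0 * w = 1 := by rw [← hv, hw]; exact v.mul_inv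
  have hwv : w * c0 = 1 := by rw [← hv, hw]; exact v.inv_mul
  have e1 : b * (b * w) = 1 := by rw [← mul_assoc, hbb, hvw]
  have e2 : (w * b) * b = 1 := by rw [mul_assoc, hbb, hwv]
  have e3 : w * b = b * w := left_inv_eq_right_inv e2 e1
  set b' := b * w with hb'
  have hb1 : b * b' = 1 := e1
  have hb2 : b' * b = 1 := by rw [← e3]; exact e2
  have hbs' : star b' = b' := by
    have h5 : star b' * b = 1 := by
      have := congrArg star hb1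
      rwa [star_mul, hbs, star_one] at this
    exact left_inv_eq_right_inv h5 hb1
  refine ⟨b, b', hbs, hbs', hb1, hb2, hbb, ?_⟩
  have h6 : ∑ j, star (C j * b') * (C j * b') = b' * (∑ j, star (C j) * C j) * b' := by
    rw [Finset.mul_sum, Finset.sum_mul]
    refine Finset.sum_congr rfl fun j _ => ?_
    rw [star_mul, hbs']
    simp only [mul_assoc]
  rw [h6]
  have h7 : (∑ j, star (C j) * C j) ≤ c0 := le_add_of_nonneg_right h2
  have h8 := star_left_conjugate_le_conjugate h7 b'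
  rw [hbs'] at h8
  refine h8.trans ?_
  have h9 : b' * (b * b) * b' = 1 := by
    rw [show b' * (b * b) * b' = (b' * b) * (b * b') by simp only [mul_assoc], hb2, hb1, one_mul]
  rw [← hbb, h9]

end normalise

section local_est

variable {A I : Type*} [CStarAlgebra A] [PartialOrder A] [StarOrderedRing A]
  [CStarAlgebra I] [PartialOrder I] [StarOrderedRing I]
  {K : Type*} [NormedAddCommGroup K] [InnerProductSpace ℂ K] [CompleteSpace K]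
  {H0 : Type*} [NormedAddCommGroup H0] [InnerProductSpace ℂ H0] [CompleteSpace H0]
  {F : Type*} [Fintype F] [DecidableEq F] {κ : Type*} [Fintype κ]

lemma norm_sq_apply (σ : A →⋆ₐ[ℂ] (K →L[ℂ] K)) (b : A) (ξ : K) :
    ((‖σ b ξ‖ ^ 2 : ℝ) : ℂ) = ⟪ξ, σ (star b * b) ξ⟫_ℂ := by
  rw [map_mul, map_star, mul_apply_eq_comp, ContinuousLinearMap.star_eq_adjoint,
    ContinuousLinearMap.adjoint_inner_right, inner_self_eq_norm_sq_to_K]
  push_cast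
  rfl

lemma norm_sq_normaliser (σ : A →⋆ₐ[ℂ] (K →L[ℂ] K)) (C : κ → A) (b : A) (δ : ℝ)
    (hb : star b = b) (hbb : b * b = (∑ j, star (C j) * C j) + (δ : ℂ) • (1 : A)) (ξ : K) :
    ‖σ b ξ‖ ^ 2 = (∑ j, ‖σ (C j) ξ‖ ^ 2) + δ * ‖ξ‖ ^ 2 := by
  have h1 := norm_sq_apply σ b ξ
  rw [hb, hbb, map_add, map_sum, map_smul, map_one, add_apply, inner_add_right,
    smul_apply, one_apply_eq_self, inner_smul_right, inner_self_eq_norm_sq_to_K] at h1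
  have h2 : ⟪ξ, (∑ j, σ (star (C j) * C j)) ξ⟫_ℂ = ((∑ j, ‖σ (C j) ξ‖ ^ 2 : ℝ) : ℂ) := by
    rw [sum_apply, inner_sum, Complex.ofReal_sum]
    exact Finset.sum_congr rfl fun j _ => (norm_sq_apply σ (C j) ξ).symm
  rw [h2] at h1
  have h3 : (((∑ j, ‖σ (C j) ξ‖ ^ 2 : ℝ) : ℂ) + (δ : ℂ) * ((‖ξ‖ : ℂ)) ^ 2) =
      (((∑ j, ‖σ (C j) ξ‖ ^ 2) + δ * ‖ξ‖ ^ 2 : ℝ) : ℂ) := by
    push_cast; rfl
  exact_mod_cast h1.trans h3

/-- Local estimate for vectors coming from `A`. -/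
theorem local_A (ι : A →⋆ₐ[ℂ] I) (π₀ : I →⋆ₐ[ℂ] (H0 →L[ℂ] H0)) (hπ₀ : Function.Injective π₀)
    (T : I →CP (K →L[ℂ] K)) (hT1 : T 1 = 1) (σ₀ : A →⋆ₐ[ℂ] (K →L[ℂ] K)) (hT : ∀ a, T (ι a) = σ₀ a)
    (γ : F → (A →⋆ₐ[ℂ] A)) (X : F → F → κ → κ → I) {c : ℝ} (hc : 0 ≤ c)
    (hX : ∀ R C : κ → A, (∑ i, R i * star (R i)) ≤ 1 → (∑ j, star (C j) * C j) ≤ 1 →
      MB (fun s t => π₀ (∑ i, ∑ j, ι (γ s (R i)) * X s t i j * ι (γ t (C j)))) c)
    (R C : κ → A) (ξ η : F → K) :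
    2 * ‖∑ s, ∑ t, ∑ i, ∑ j, ⟪σ₀ (γ s (R i)) (η s), T (X s t i j) (σ₀ (γ t (C j)) (ξ t))⟫_ℂ‖ ≤
      c * (∑ t, ∑ j, ‖σ₀ (γ t (C j)) (ξ t)‖ ^ 2) + c * (∑ s, ∑ i, ‖σ₀ (γ s (R i)) (η s)‖ ^ 2) := by
  -- bimodule property
  have hstar : ∀ a : A, T (ι a * star (ι a)) = T (ι a) * star (T (ι a)) := by
    intro a
    rw [← map_star, ← map_mul, hT, hT, map_mul, map_star]
  have hstar' : ∀ a : A, T (star (ι a) * ι a) = star (T (ι a)) * T (ι a) := by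
    intro a
    rw [← map_star, ← map_mul, hT, hT, map_mul, map_star]
  have hbi : ∀ (a b : A) (x : I), T (ι a * x * ι b) = σ₀ a * T x * σ₀ b := by
    intro a b x
    rw [map_mul_of_eq T hT1 (hstar' b), map_mul_of_eq' T hT1 (hstar a), hT, hT]
  -- reduction to an epsilon
  apply le_of_forall_pos_le_add
  intro ε hε
  set M : ℝ := c * ((∑ t, ‖ξ t‖ ^ 2) + ∑ s, ‖η s‖ ^ 2) with hM
  have hM0 : 0 ≤ M := by positivity
  obtain ⟨δ, hδ, hδM⟩ : ∃ δ : ℝ, 0 < δ ∧ δ * M ≤ ε := by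
    refine ⟨ε / (M + 1), by positivity, ?_⟩
    rw [div_mul_eq_mul_div, div_le_iff₀ (by positivity)]
    nlinarith
  obtain ⟨b, b', hbs, hbs', hb1, hb2, hbb, hbC⟩ := exists_normaliser C hδ
  obtain ⟨d, d', hds, hds', hd1, hd2, hdd, hdR⟩ := exists_normaliser R hδ
  have hR : ∑ i, (star (R i * d')) * star (star (R i * d')) ≤ 1 := by
    simpa only [star_star] using hdR
  have h1 := matrix_bound T hT1 π₀ hπ₀ (StarAlgHom.id ℂ (K →L[ℂ] K)) _ hc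
    (hX (fun i => star (R i * d')) (fun j => C j * b') hR hbC)
  have h2 := (mb_iff hc).mp h1 (fun t => σ₀ (γ t b) (ξ t)) (fun s => σ₀ (γ s d) (η s))
  have e1 : ∀ s t, ⟪σ₀ (γ s d) (η s), (StarAlgHom.id ℂ (K →L[ℂ] K)) (T (∑ i, ∑ j,
      ι (γ s (star (R i * d'))) * X s t i j * ι (γ t (C j * b')))) (σ₀ (γ t b) (ξ t))⟫_ℂ =
      ∑ i, ∑ j, ⟪σ₀ (γ s (R i)) (η s), T (X s t i j) (σ₀ (γ t (C j)) (ξ t))⟫_ℂ := by
    intro s t
    change ⟪σ₀ (γ s d) (η s), T (∑ i, ∑ j,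
      ι (γ s (star (R i * d'))) * X s t i j * ι (γ t (C j * b'))) (σ₀ (γ t b) (ξ t))⟫_ℂ = _
    rw [map_sum, sum_apply, inner_sum]
    refine Finset.sum_congr rfl fun i _ => ?_
    rw [map_sum, sum_apply, inner_sum]
    refine Finset.sum_congr rfl fun j _ => ?_
    rw [hbi, mul_apply_eq_comp, mul_apply_eq_comp]
    have e2 : σ₀ (γ t (C j * b')) (σ₀ (γ t b) (ξ t)) = σ₀ (γ t (C j)) (ξ t) := by
      rw [← mul_apply_eq_comp, ← map_mul, ← map_mul, mul_assoc, hb2, mul_one]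
    have e3 : σ₀ (γ s (R i * d')) (σ₀ (γ s d) (η s)) = σ₀ (γ s (R i)) (η s) := by
      rw [← mul_apply_eq_comp, ← map_mul, ← map_mul, mul_assoc, hd2, mul_one]
    rw [e2, map_star, map_star, ContinuousLinearMap.star_eq_adjoint,
      ContinuousLinearMap.adjoint_inner_right, e3]
  simp only [e1] at h2
  have e4 : ∀ t, ‖σ₀ (γ t b) (ξ t)‖ ^ 2 =
      (∑ j, ‖σ₀ (γ t (C j)) (ξ t)‖ ^ 2) + δ * ‖ξ t‖ ^ 2 := by
    intro t
    exact norm_sq_normaliser (σ₀.comp (γ t)) C b δ hbs hbb (ξ t)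
  have e5 : ∀ s, ‖σ₀ (γ s d) (η s)‖ ^ 2 =
      (∑ j, ‖σ₀ (γ s (R j)) (η s)‖ ^ 2) + δ * ‖η s‖ ^ 2 := by
    intro s
    exact norm_sq_normaliser (σ₀.comp (γ s)) R d δ hds hdd (η s)
  simp only [e4, e5, Finset.sum_add_distrib, ← Finset.mul_sum] at h2
  have h3 : c * (∑ t, ∑ j, ‖σ₀ (γ t (C j)) (ξ t)‖ ^ 2 + δ * ∑ t, ‖ξ t‖ ^ 2) +
      c * (∑ s, ∑ j, ‖σ₀ (γ s (R j)) (η s)‖ ^ 2 + δ * ∑ s, ‖η s‖ ^ 2) =
      c * (∑ t, ∑ j, ‖σ₀ (γ t (C j)) (ξ t)‖ ^ 2) +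
        c * (∑ s, ∑ i, ‖σ₀ (γ s (R i)) (η s)‖ ^ 2) + δ * M := by
    rw [hM]; ring
  rw [h3] at h2
  linarith

lemma norm_sq_cp_le (τ : I →CP (K →L[ℂ] K)) (h1 : τ 1 = 1) (C : κ → I)
    (hC : (∑ j, star (C j) * C j) ≤ 1) (ξ : K) : ∑ j, ‖τ (C j) ξ‖ ^ 2 ≤ ‖ξ‖ ^ 2 := by
  have h2 : ∑ j, star (τ (C j)) * τ (C j) ≤ 1 := by
    calc ∑ j, star (τ (C j)) * τ (C j) ≤ ∑ j, τ (star (C j) * C j) :=
          Finset.sum_le_sum fun j _ => schwarz τ h1 (C j)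
      _ = τ (∑ j, star (C j) * C j) := by rw [map_sum]
      _ ≤ τ 1 := OrderHomClass.mono τ hC
      _ = 1 := h1
  have h3 := (ContinuousLinearMap.le_def _ _).mp h2
  have h4 := h3.re_inner_nonneg_right ξ
  rw [ContinuousLinearMap.sub_apply, inner_sub_right, one_apply_eq_self,
    sum_apply, inner_sum, map_sub, inner_self_eq_norm_sq, map_sum] at h4
  have h5 : ∀ j, RCLike.re ⟪ξ, (star (τ (C j)) * τ (C j)) ξ⟫_ℂ = ‖τ (C j) ξ‖ ^ 2 := by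
    intro j
    rw [mul_apply_eq_comp, ContinuousLinearMap.star_eq_adjoint,
      ContinuousLinearMap.adjoint_inner_right, inner_self_eq_norm_sq]
  simp only [h5] at h4
  linarith

/-- The local estimate. -/
theorem local_bound (ι : A →⋆ₐ[ℂ] I) (π₀ : I →⋆ₐ[ℂ] (H0 →L[ℂ] H0)) (hπ₀ : Function.Injective π₀)
    (T : I →CP (K →L[ℂ] K)) (hT1 : T 1 = 1) (σ₀ : A →⋆ₐ[ℂ] (K →L[ℂ] K)) (hT : ∀ a, T (ι a) = σ₀ a)
    (γ : F → (A →⋆ₐ[ℂ] A)) (X : F → F → κ → κ → I) {c : ℝ} (hc : 0 ≤ c)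
    (hX : ∀ R C : κ → A, (∑ i, R i * star (R i)) ≤ 1 → (∑ j, star (C j) * C j) ≤ 1 →
      MB (fun s t => π₀ (∑ i, ∑ j, ι (γ s (R i)) * X s t i j * ι (γ t (C j)))) c)
    (τ : F → (I →CP (K →L[ℂ] K))) (hτ1 : ∀ s, τ s 1 = 1)
    (hτ : ∀ s t (S : K →L[ℂ] K), (∀ a, S * σ₀ (γ t a) = σ₀ (γ s a) * S) →
      ∀ x, S * τ t x = τ s x * S)
    (R C : κ → I) (hR : (∑ i, R i * star (R i)) ≤ 1) (hC : (∑ j, star (C j) * C j) ≤ 1) :
    MB (fun s t => ∑ i, ∑ j, τ s (R i) * T (X s t i j) * τ t (C j)) c := by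
  rw [mb_iff hc]
  intro ξ η
  -- approximating sequences
  have hdense : ∀ (x : I) (ζ : F → K) (n : ℕ), ∃ a : A, ∀ t,
      ‖σ₀ (γ t a) (ζ t) - τ t x (ζ t)‖ < 1 / ((n : ℝ) + 1) := by
    intro x ζ n
    exact dense_lemma (fun t => σ₀.comp (γ t)) (fun t => τ t x)
      (fun s t S hS => hτ s t S hS x) ζ (by positivity)
  choose CC hCC using fun (j : κ) (n : ℕ) => hdense (C j) ξ n
  choose RR hRR using fun (i : κ) (n : ℕ) => hdense (star (R i)) η n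
  have hCt : ∀ t j, Filter.Tendsto (fun n => σ₀ (γ t (CC j n)) (ξ t)) Filter.atTop
      (nhds (τ t (C j) (ξ t))) := by
    intro t j
    rw [tendsto_iff_norm_sub_tendsto_zero]
    exact squeeze_zero (fun n => norm_nonneg _) (fun n => (hCC j n t).le)
      tendsto_one_div_add_atTop_nhds_zero_nat
  have hRt : ∀ s i, Filter.Tendsto (fun n => σ₀ (γ s (RR i n)) (η s)) Filter.atTop
      (nhds (τ s (star (R i)) (η s))) := by
    intro s i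
    rw [tendsto_iff_norm_sub_tendsto_zero]
    exact squeeze_zero (fun n => norm_nonneg _) (fun n => (hRR i n s).le)
      tendsto_one_div_add_atTop_nhds_zero_nat
  have key : 2 * ‖∑ s, ∑ t, ∑ i, ∑ j,
      ⟪τ s (star (R i)) (η s), T (X s t i j) (τ t (C j) (ξ t))⟫_ℂ‖ ≤
      c * (∑ t, ∑ j, ‖τ t (C j) (ξ t)‖ ^ 2) + c * (∑ s, ∑ i, ‖τ s (star (R i)) (η s)‖ ^ 2) := by
    refine le_of_tendsto_of_tendsto' (b := Filter.atTop)
      (f := fun n => 2 * ‖∑ s, ∑ t, ∑ i, ∑ j,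
        ⟪σ₀ (γ s (RR i n)) (η s), T (X s t i j) (σ₀ (γ t (CC j n)) (ξ t))⟫_ℂ‖)
      (g := fun n => c * (∑ t, ∑ j, ‖σ₀ (γ t (CC j n)) (ξ t)‖ ^ 2) +
        c * (∑ s, ∑ i, ‖σ₀ (γ s (RR i n)) (η s)‖ ^ 2)) ?_ ?_ ?_
    · refine Filter.Tendsto.const_mul 2 (Filter.Tendsto.norm ?_)
      refine tendsto_finsetSum _ fun s _ => tendsto_finsetSum _ fun t _ =>
        tendsto_finsetSum _ fun i _ => tendsto_finsetSum _ fun j _ => ?_
      exact Filter.Tendsto.inner (hRt s i) (((T (X s t i j)).continuous.tendsto _).comp (hCt t j))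
    · refine Filter.Tendsto.add (Filter.Tendsto.const_mul c ?_) (Filter.Tendsto.const_mul c ?_)
      · exact tendsto_finsetSum _ fun t _ => tendsto_finsetSum _ fun j _ => (hCt t j).norm.pow 2
      · exact tendsto_finsetSum _ fun s _ => tendsto_finsetSum _ fun i _ => (hRt s i).norm.pow 2
    · intro n
      exact local_A ι π₀ hπ₀ T hT1 σ₀ hT γ X hc hX (fun i => RR i n) (fun j => CC j n) ξ η
  have e1 : ∀ s t, ⟪η s, (∑ i, ∑ j, τ s (R i) * T (X s t i j) * τ t (C j)) (ξ t)⟫_ℂ =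
      ∑ i, ∑ j, ⟪τ s (star (R i)) (η s), T (X s t i j) (τ t (C j) (ξ t))⟫_ℂ := by
    intro s t
    rw [sum_apply, inner_sum]
    refine Finset.sum_congr rfl fun i _ => ?_
    rw [sum_apply, inner_sum]
    refine Finset.sum_congr rfl fun j _ => ?_
    rw [mul_apply_eq_comp, mul_apply_eq_comp, cp_star, ContinuousLinearMap.star_eq_adjoint,
      ContinuousLinearMap.adjoint_inner_left]
  simp only [e1]
  have h2 : ∑ t, ∑ j, ‖τ t (C j) (ξ t)‖ ^ 2 ≤ ∑ t, ‖ξ t‖ ^ 2 :=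
    Finset.sum_le_sum fun t _ => norm_sq_cp_le (τ t) (hτ1 t) C hC (ξ t)
  have hR' : (∑ i, star (star (R i)) * star (R i)) ≤ 1 := by simpa only [star_star] using hR
  have h3 : ∑ s, ∑ i, ‖τ s (star (R i)) (η s)‖ ^ 2 ≤ ∑ s, ‖η s‖ ^ 2 :=
    Finset.sum_le_sum fun s _ => norm_sq_cp_le (τ s) (hτ1 s) (fun i => star (R i)) hR' (η s)
  calc _ ≤ _ := key
    _ ≤ _ := add_le_add (mul_le_mul_of_nonneg_left h2 hc) (mul_le_mul_of_nonneg_left h3 hc)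

end local_est

end Pool.Agent.NormEnv
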