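import Pool.Agent.NormEnv.Local

/-! Norms of rows, columns and one by one matrices. -/

open scoped CStarAlgebra ComplexOrder InnerProductSpace ENNReal WithCStarModule

namespace Pool.Agent.NormEnv

section rowcol

variable {B : Type*} [CStarAlgebra B] [PartialOrder B] [StarOrderedRing B]
  {n : Type*} [Fintype n]

lemma norm_le_one_iff_mul_star_le (x : B) (hx : 0 ≤ x) : ‖x‖ ≤ 1 ↔ x ≤ 1 :=
  CStarAlgebra.norm_le_one_iff_of_nonneg x hx

lemma sum_mul_star_nonneg (r : n → B) : 0 ≤ ∑ i, r i * star (r i) :=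
  Finset.sum_nonneg fun i _ => mul_star_self_nonneg _

lemma sum_star_mul_nonneg (r : n → B) : 0 ≤ ∑ i, star (r i) * r i :=
  Finset.sum_nonneg fun i _ => star_mul_self_nonneg _

lemma norm_one_le_one' : ‖(1 : B)‖ ≤ 1 := by
  by_cases hB : Subsingleton B
  · rw [Subsingleton.elim (1 : B) 0, norm_zero]
    exact zero_le_one
  · haveI : Nontrivial B := not_subsingleton_iff_nontrivial.mp hB
    exact CStarRing.norm_one.le

/-- Norm of a row. -/
lemma row_norm_le_one_iff (R : CStarMatrix (Fin 1) n B) :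
    ‖R‖ ≤ 1 ↔ ∑ i, R 0 i * star (R 0 i) ≤ 1 := by
  rw [← norm_le_one_iff_mul_star_le _ (sum_mul_star_nonneg _)]
  have key : ∀ v : C⋆ᵐᵒᵈ(B, Fin 1 → B), ‖CStarMatrix.toCLM R v‖ ^ 2 =
      ‖v 0 * (∑ i, R 0 i * star (R 0 i)) * star (v 0)‖ := by
    intro v
    rw [WithCStarModule.pi_norm_sq]
    congr 1
    rw [Finset.mul_sum, Finset.sum_mul]
    refine Finset.sum_congr rfl fun i _ => ?_
    rw [CStarMatrix.toCLM_apply_eq_sum, WithCStarModule.inner_def]
    simp [mul_assoc]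
  constructor
  · intro h
    set v : C⋆ᵐᵒᵈ(B, Fin 1 → B) := (WithCStarModule.equiv B (Fin 1 → B)).symm (fun _ => 1) with hv
    have h1 := key v
    have hv0 : v 0 = 1 := rfl
    rw [hv0, star_one, one_mul, mul_one] at h1
    have hvn : ‖v‖ ^ 2 ≤ 1 := by
      rw [WithCStarModule.pi_norm_sq]
      have : ∑ i, ⟪v i, v i⟫_B = 1 := by
        rw [Fin.sum_univ_one, WithCStarModule.inner_def, hv0, star_one, one_mul]
      rw [this]
      exact norm_one_le_one'
    have h2 : ‖CStarMatrix.toCLM R v‖ ≤ ‖R‖ * ‖v‖ := by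
      rw [CStarMatrix.norm_def]
      exact (CStarMatrix.toCLM R).le_opNorm v
    rw [← h1]
    have hv1 : ‖v‖ ≤ 1 := by
      have h3 : (0:ℝ) ≤ ‖v‖ := norm_nonneg _
      nlinarith
    have h3 : (0:ℝ) ≤ ‖CStarMatrix.toCLM R v‖ := norm_nonneg _
    have h4 : (0:ℝ) ≤ ‖R‖ := norm_nonneg _
    have h5 : ‖CStarMatrix.toCLM R v‖ ≤ 1 := by
      calc ‖CStarMatrix.toCLM R v‖ ≤ ‖R‖ * ‖v‖ := h2
        _ ≤ 1 * 1 := mul_le_mul h hv1 (norm_nonneg _) zero_le_one
        _ = 1 := one_mul 1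
    exact pow_le_one₀ h3 h5
  · intro h
    rw [CStarMatrix.norm_def]
    refine ContinuousLinearMap.opNorm_le_bound _ zero_le_one fun v => ?_
    rw [one_mul]
    refine le_of_sq_le_sq ?_ (norm_nonneg _)
    rw [key v, WithCStarModule.pi_norm_sq]
    have h2 : ∑ i, ⟪v i, v i⟫_B = v 0 * star (v 0) := by
      rw [Fin.sum_univ_one, WithCStarModule.inner_def]
    rw [h2, CStarRing.norm_self_mul_star]
    calc ‖v 0 * (∑ i, R 0 i * star (R 0 i)) * star (v 0)‖
        ≤ ‖v 0 * (∑ i, R 0 i * star (R 0 i))‖ * ‖star (v 0)‖ := norm_mul_le _ _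
      _ ≤ (‖v 0‖ * ‖∑ i, R 0 i * star (R 0 i)‖) * ‖star (v 0)‖ := by
          gcongr
          exact norm_mul_le _ _
      _ ≤ (‖v 0‖ * 1) * ‖v 0‖ := by
          rw [norm_star]
          gcongr
      _ = ‖v 0‖ * ‖v 0‖ := by rw [mul_one]

/-- Norm of a column. -/
lemma col_norm_le_one_iff (S : CStarMatrix n (Fin 1) B) :
    ‖S‖ ≤ 1 ↔ ∑ i, star (S i 0) * S i 0 ≤ 1 := by
  rw [← norm_le_one_iff_mul_star_le _ (sum_star_mul_nonneg _)]
  set x : C⋆ᵐᵒᵈ(B, n → B) := (WithCStarModule.equiv B (n → B)).symm (fun i => star (S i 0)) with hx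
  have hxi : ∀ i, x i = star (S i 0) := fun i => rfl
  have hxn : ‖x‖ ^ 2 = ‖∑ i, star (S i 0) * S i 0‖ := by
    rw [WithCStarModule.pi_norm_sq]
    congr 1
    refine Finset.sum_congr rfl fun i _ => ?_
    rw [WithCStarModule.inner_def, hxi, star_star]
  have hin : ∀ v : C⋆ᵐᵒᵈ(B, n → B), ‖CStarMatrix.toCLM S v‖ = ‖⟪x, v⟫_B‖ := by
    intro v
    have h1 : ‖CStarMatrix.toCLM S v‖ ^ 2 = ‖⟪x, v⟫_B‖ ^ 2 := by
      rw [WithCStarModule.pi_norm_sq, Fin.sum_univ_one, WithCStarModule.inner_def,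
        CStarRing.norm_self_mul_star, sq]
      have h2 : (CStarMatrix.toCLM S v) 0 = ⟪x, v⟫_B := by
        rw [CStarMatrix.toCLM_apply_eq_sum, WithCStarModule.pi_inner]
        simp [WithCStarModule.inner_def, hxi]
      rw [h2]
    exact (pow_left_inj₀ (norm_nonneg _) (norm_nonneg _) two_ne_zero).mp h1
  constructor
  · intro h
    have h1 := hin x
    have h2 : ‖⟪x, x⟫_B‖ = ‖x‖ ^ 2 := by
      rw [hxn, WithCStarModule.pi_inner]
      congr 1
      refine Finset.sum_congr rfl fun i _ => ?_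
      rw [WithCStarModule.inner_def, hxi, star_star]
    have h3 : ‖CStarMatrix.toCLM S x‖ ≤ ‖S‖ * ‖x‖ := by
      rw [CStarMatrix.norm_def]
      exact (CStarMatrix.toCLM S).le_opNorm x
    rw [← hxn]
    rw [h1, h2] at h3
    have h4 : (0:ℝ) ≤ ‖x‖ := norm_nonneg _
    have h5 : ‖x‖ ≤ 1 := by
      by_contra hcon
      push Not at hcon
      nlinarith
    exact pow_le_one₀ h4 h5
  · intro h
    rw [CStarMatrix.norm_def]
    refine ContinuousLinearMap.opNorm_le_bound _ zero_le_one fun v => ?_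
    rw [hin v]
    refine (CStarModule.norm_inner_le (C⋆ᵐᵒᵈ(B, n → B))).trans ?_
    have h4 : (0:ℝ) ≤ ‖x‖ := norm_nonneg _
    have h5 : ‖x‖ ≤ 1 := by
      rw [← hxn] at h
      by_contra hcon
      push Not at hcon
      nlinarith
    gcongr

/-- Norm of a one by one matrix. -/
lemma one_norm_eq (M : CStarMatrix (Fin 1) (Fin 1) B) : ‖M‖ = ‖M 0 0‖ := by
  apply le_antisymm
  · rw [CStarMatrix.norm_def]
    refine ContinuousLinearMap.opNorm_le_bound _ (norm_nonneg _) fun v => ?_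
    refine le_of_sq_le_sq ?_ (by positivity)
    rw [WithCStarModule.pi_norm_sq, mul_pow, WithCStarModule.pi_norm_sq, Fin.sum_univ_one,
      Fin.sum_univ_one, WithCStarModule.inner_def, WithCStarModule.inner_def,
      CStarRing.norm_self_mul_star, CStarRing.norm_self_mul_star]
    have h2 : (CStarMatrix.toCLM M v) 0 = v 0 * M 0 0 := by
      rw [CStarMatrix.toCLM_apply_eq_sum]
      simp
    rw [h2]
    have h3 := norm_mul_le (v 0) (M 0 0)
    have h4 : 0 ≤ ‖v 0‖ := norm_nonneg _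
    have h5 : 0 ≤ ‖M 0 0‖ := norm_nonneg _
    have h6 : 0 ≤ ‖v 0 * M 0 0‖ := norm_nonneg _
    nlinarith
  · exact CStarMatrix.norm_entry_le_norm

end rowcol

end Pool.Agent.NormEnv
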