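import Pool.Agent.NormEnv.Dense

/-! Hilbert sums of representations and of unital completely positive maps. -/

open scoped CStarAlgebra ComplexOrder InnerProductSpace ENNReal

namespace Pool.Agent.NormEnv

section bd

variable {J : Type*} {K : J → Type*} [∀ j, NormedAddCommGroup (K j)]
  [∀ j, InnerProductSpace ℂ (K j)]

lemma bd_mem {T : ∀ j, K j →L[ℂ] K j} {C : ℝ} (hC : ∀ j, ‖T j‖ ≤ C) (x : lp K 2) :
    Memℓp (fun j => T j (x j)) 2 := by
  have h1 : Memℓp (fun j => C * ‖x j‖) 2 :=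
    (Memℓp.const_mul (𝕜 := ℝ) (memℓp_norm_iff.mpr (lp.memℓp x)) C)
  refine Memℓp.mono h1 fun j => ?_
  exact ((T j).le_opNorm (x j)).trans (mul_le_mul_of_nonneg_right (hC j) (norm_nonneg _))

lemma bd_add (T : ∀ j, K j →L[ℂ] K j) (C : ℝ) (hC : ∀ j, ‖T j‖ ≤ C) (x y : lp K 2) :
    (⟨fun j => T j ((x + y) j), bd_mem hC (x + y)⟩ : lp K 2) =
      ⟨fun j => T j (x j), bd_mem hC x⟩ + ⟨fun j => T j (y j), bd_mem hC y⟩ := by
  apply lp.ext
  funext j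
  simp

lemma bd_smul (T : ∀ j, K j →L[ℂ] K j) (C : ℝ) (hC : ∀ j, ‖T j‖ ≤ C) (c : ℂ) (x : lp K 2) :
    (⟨fun j => T j ((c • x) j), bd_mem hC (c • x)⟩ : lp K 2) =
      (RingHom.id ℂ) c • (⟨fun j => T j (x j), bd_mem hC x⟩ : lp K 2) := by
  apply lp.ext
  funext j
  simp

lemma bd_norm (T : ∀ j, K j →L[ℂ] K j) (C : ℝ) (hC : ∀ j, ‖T j‖ ≤ C) (x : lp K 2) :
    ‖(⟨fun j => T j (x j), bd_mem hC x⟩ : lp K 2)‖ ≤ |C| * ‖x‖ := by
  have h1 : ‖(⟨fun j => T j (x j), bd_mem hC x⟩ : lp K 2)‖ ≤ ‖(C : ℂ) • x‖ := by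
    apply lp.norm_mono two_ne_zero
    intro j
    rw [lp.coeFn_smul, Pi.smul_apply, norm_smul, Complex.norm_real]
    exact ((T j).le_opNorm (x j)).trans
      (mul_le_mul_of_nonneg_right ((hC j).trans (le_abs_self C)) (norm_nonneg _))
  rw [norm_smul, Complex.norm_real] at h1
  exact h1

/-- Block diagonal operators. -/
noncomputable def bd (T : ∀ j, K j →L[ℂ] K j) (C : ℝ) (hC : ∀ j, ‖T j‖ ≤ C) :
    lp K 2 →L[ℂ] lp K 2 :=
  LinearMap.mkContinuous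
    { toFun := fun x => ⟨fun j => T j (x j), bd_mem hC x⟩
      map_add' := bd_add T C hC
      map_smul' := bd_smul T C hC }
    |C| (bd_norm T C hC)

lemma bd_apply (T : ∀ j, K j →L[ℂ] K j) (C : ℝ) (hC : ∀ j, ‖T j‖ ≤ C) (x : lp K 2) (j : J) :
    bd T C hC x j = T j (x j) := rfl

end bd

section unitalCP

variable {B C : Type*} [CStarAlgebra B] [PartialOrder B] [StarOrderedRing B]
  [CStarAlgebra C] [PartialOrder C] [StarOrderedRing C]

/-- Unital completely positive maps are contractive. -/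
lemma cp_norm_le (θ : B →CP C) (h1 : θ 1 = 1) (x : B) : ‖θ x‖ ≤ ‖x‖ := by
  by_cases hC : Subsingleton C
  · rw [Subsingleton.elim (θ x) 0, norm_zero]
    exact norm_nonneg _
  haveI : Nontrivial C := not_subsingleton_iff_nontrivial.mp hC
  have h2 : ‖θ x‖ ^ 2 ≤ ‖x‖ ^ 2 := by
    rw [sq, sq, ← CStarRing.norm_star_mul_self, ← CStarRing.norm_star_mul_self]
    refine (CStarAlgebra.norm_le_norm_of_nonneg_of_le (star_mul_self_nonneg _)
      (schwarz θ h1 x)).trans ?_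
    have h3 : θ (star x * x) ≤ θ (algebraMap ℝ B ‖star x * x‖) :=
      OrderHomClass.mono θ (IsSelfAdjoint.le_algebraMap_norm_self (.star_mul_self x))
    have h4 : θ (algebraMap ℝ B ‖star x * x‖) = algebraMap ℝ C ‖star x * x‖ := by
      rw [Algebra.algebraMap_eq_smul_one, Algebra.algebraMap_eq_smul_one, ← Complex.coe_smul,
        map_smul, h1, Complex.coe_smul]
    rw [h4] at h3
    have h5 : 0 ≤ θ (star x * x) := map_nonneg θ (star_mul_self_nonneg x)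
    refine (CStarAlgebra.norm_le_norm_of_nonneg_of_le h5 h3).trans ?_
    rw [norm_algebraMap, norm_norm, CStarRing.norm_one, mul_one]
  exact le_of_sq_le_sq h2 (norm_nonneg _)

end unitalCP

section sums

variable {J : Type*} {K : J → Type*} [∀ j, NormedAddCommGroup (K j)]
  [∀ j, InnerProductSpace ℂ (K j)] [∀ j, CompleteSpace (K j)]
  {A I : Type*} [CStarAlgebra A] [CStarAlgebra I] [PartialOrder I] [StarOrderedRing I]

lemma norm_hom_le (σ : ∀ j, A →⋆ₐ[ℂ] (K j →L[ℂ] K j)) (a : A) (j : J) : ‖σ j a‖ ≤ ‖a‖ :=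
  NonUnitalStarAlgHom.norm_apply_le (σ j) a

/-- The block diagonal operator of `a`. -/
noncomputable def sumFun (σ : ∀ j, A →⋆ₐ[ℂ] (K j →L[ℂ] K j)) (a : A) : lp K 2 →L[ℂ] lp K 2 :=
  bd (fun j => σ j a) ‖a‖ (norm_hom_le σ a)

lemma sumFun_apply (σ : ∀ j, A →⋆ₐ[ℂ] (K j →L[ℂ] K j)) (a : A) (x : lp K 2) (j : J) :
    sumFun σ a x j = σ j a (x j) := rfl

lemma sumFun_one (σ : ∀ j, A →⋆ₐ[ℂ] (K j →L[ℂ] K j)) : sumFun σ 1 = 1 := by
  ext x : 1
  apply lp.ext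
  funext j
  rw [sumFun_apply]
  simp

lemma sumFun_mul (σ : ∀ j, A →⋆ₐ[ℂ] (K j →L[ℂ] K j)) (a b : A) :
    sumFun σ (a * b) = sumFun σ a * sumFun σ b := by
  ext x : 1
  apply lp.ext
  funext j
  rw [mul_apply_eq_comp, sumFun_apply, sumFun_apply, sumFun_apply]
  simp [mul_apply_eq_comp]

lemma sumFun_zero (σ : ∀ j, A →⋆ₐ[ℂ] (K j →L[ℂ] K j)) : sumFun σ 0 = 0 := by
  ext x : 1
  apply lp.ext
  funext j
  rw [sumFun_apply]
  simp

lemma sumFun_add (σ : ∀ j, A →⋆ₐ[ℂ] (K j →L[ℂ] K j)) (a b : A) :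
    sumFun σ (a + b) = sumFun σ a + sumFun σ b := by
  ext x : 1
  apply lp.ext
  funext j
  rw [add_apply, lp.coeFn_add, Pi.add_apply, sumFun_apply, sumFun_apply, sumFun_apply]
  simp

lemma sumFun_algebraMap (σ : ∀ j, A →⋆ₐ[ℂ] (K j →L[ℂ] K j)) (r : ℂ) :
    sumFun σ (algebraMap ℂ A r) = algebraMap ℂ (lp K 2 →L[ℂ] lp K 2) r := by
  ext x : 1
  apply lp.ext
  funext j
  rw [sumFun_apply]
  simp [Algebra.algebraMap_eq_smul_one]

lemma sumFun_star (σ : ∀ j, A →⋆ₐ[ℂ] (K j →L[ℂ] K j)) (a : A) :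
    sumFun σ (star a) = star (sumFun σ a) := by
  rw [ContinuousLinearMap.star_eq_adjoint, ContinuousLinearMap.eq_adjoint_iff]
  intro x y
  rw [lp.inner_eq_tsum, lp.inner_eq_tsum]
  refine tsum_congr fun j => ?_
  rw [sumFun_apply, sumFun_apply, map_star, ContinuousLinearMap.star_eq_adjoint,
    ContinuousLinearMap.adjoint_inner_left]

/-- Hilbert sum of representations. -/
noncomputable def sumHom (σ : ∀ j, A →⋆ₐ[ℂ] (K j →L[ℂ] K j)) :
    A →⋆ₐ[ℂ] (lp K 2 →L[ℂ] lp K 2) where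
  toFun := sumFun σ
  map_one' := sumFun_one σ
  map_mul' := sumFun_mul σ
  map_zero' := sumFun_zero σ
  map_add' := sumFun_add σ
  commutes' := sumFun_algebraMap σ
  map_star' := sumFun_star σ

lemma sumHom_apply (σ : ∀ j, A →⋆ₐ[ℂ] (K j →L[ℂ] K j)) (a : A) (x : lp K 2) (j : J) :
    sumHom σ a x j = σ j a (x j) := rfl

/-- Hilbert sum of unital completely positive maps. -/
noncomputable def sumCP (τ : ∀ j, I →CP (K j →L[ℂ] K j)) (h1 : ∀ j, τ j 1 = 1) :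
    I →CP (lp K 2 →L[ℂ] lp K 2) where
  toFun a := bd (fun j => τ j a) ‖a‖ (fun j => cp_norm_le (τ j) (h1 j) a)
  map_add' a b := by
    ext x : 1
    apply lp.ext
    funext j
    rw [add_apply, lp.coeFn_add, Pi.add_apply, bd_apply, bd_apply, bd_apply]
    simp
  map_smul' r a := by
    ext x : 1
    apply lp.ext
    funext j
    rw [smul_apply, lp.coeFn_smul, Pi.smul_apply, bd_apply, bd_apply]
    simp
  map_cstarMatrix_nonneg' k M hM := by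
    apply nonneg_of_forall_inner
    intro ζ
    have h2 : ∀ i l, ⟪ζ i, (M.map fun a => bd (fun j => τ j a) ‖a‖
        (fun j => cp_norm_le (τ j) (h1 j) a)) i l (ζ l)⟫_ℂ =
        ∑' j, ⟪ζ i j, τ j (M i l) (ζ l j)⟫_ℂ := by
      intro i l
      rw [lp.inner_eq_tsum]
      rfl
    have h3 : ∀ i l, Summable fun j => ⟪ζ i j, τ j (M i l) (ζ l j)⟫_ℂ := by
      intro i l
      exact lp.summable_inner (ζ i) (bd (fun j => τ j (M i l)) ‖M i l‖
        (fun j => cp_norm_le (τ j) (h1 j) _) (ζ l))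
    have h4 : ∑ i, ∑ l, ⟪ζ i, (M.map fun a => bd (fun j => τ j a) ‖a‖
        (fun j => cp_norm_le (τ j) (h1 j) a)) i l (ζ l)⟫_ℂ =
        ∑' j, ∑ i, ∑ l, ⟪ζ i j, τ j (M i l) (ζ l j)⟫_ℂ := by
      simp only [h2]
      rw [Summable.tsum_finsetSum]
      · refine Finset.sum_congr rfl fun i _ => ?_
        rw [Summable.tsum_finsetSum]
        exact fun l _ => h3 i l
      · intro i _
        exact summable_sum fun l _ => h3 i l
    have h5 : 0 ≤ ∑' j, ∑ i, ∑ l, ⟪ζ i j, τ j (M i l) (ζ l j)⟫_ℂ := by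
      apply tsum_nonneg
      intro j
      exact inner_nonneg_of_nonneg _ ((τ j).map_cstarMatrix_nonneg M hM) (fun i => ζ i j)
    rw [← h4] at h5
    exact h5

lemma sumCP_apply (τ : ∀ j, I →CP (K j →L[ℂ] K j)) (h1 : ∀ j, τ j 1 = 1) (a : I)
    (x : lp K 2) (j : J) : sumCP τ h1 a x j = τ j a (x j) := rfl

lemma sumCP_one (τ : ∀ j, I →CP (K j →L[ℂ] K j)) (h1 : ∀ j, τ j 1 = 1) :
    sumCP τ h1 1 = 1 := by
  ext x : 1
  apply lp.ext
  funext j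
  rw [sumCP_apply, h1]
  rfl

lemma sumCP_eq_sumHom (τ : ∀ j, I →CP (K j →L[ℂ] K j)) (h1 : ∀ j, τ j 1 = 1)
    (σ : ∀ j, A →⋆ₐ[ℂ] (K j →L[ℂ] K j)) (x : I) (a : A) (h : ∀ j, τ j x = σ j a) :
    sumCP τ h1 x = sumHom σ a := by
  ext y : 1
  apply lp.ext
  funext j
  rw [sumCP_apply, sumHom_apply, h]

end sums

section MBsec

variable {H : Type*} [NormedAddCommGroup H] [InnerProductSpace ℂ H]
  {n : Type*} [Fintype n]

/-- Arithmetic mean form of the bound. -/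
lemma mb_iff {m : n → n → (H →L[ℂ] H)} {c : ℝ} (hc : 0 ≤ c) :
    MB m c ↔ ∀ ξ η : n → H, 2 * ‖∑ i, ∑ j, ⟪η i, m i j (ξ j)⟫_ℂ‖ ≤
      c * (∑ j, ‖ξ j‖ ^ 2) + c * (∑ i, ‖η i‖ ^ 2) := by
  constructor
  · intro h ξ η
    have h1 := h ξ η
    have hX : 0 ≤ ∑ j, ‖ξ j‖ ^ 2 := Finset.sum_nonneg fun i _ => by positivity
    have hY : 0 ≤ ∑ j, ‖η j‖ ^ 2 := Finset.sum_nonneg fun i _ => by positivity
    have h2 := Real.sq_sqrt hX
    have h3 := Real.sq_sqrt hY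
    nlinarith [mul_nonneg hc (sq_nonneg (√(∑ j, ‖ξ j‖ ^ 2) - √(∑ j, ‖η j‖ ^ 2)))]
  · intro h ξ η
    by_cases hξ : ∑ j, ‖ξ j‖ ^ 2 = 0
    · have h2 : ∀ j, ξ j = 0 := by
        intro j
        have := (Finset.sum_eq_zero_iff_of_nonneg (fun i _ => by positivity)).mp hξ j
          (Finset.mem_univ j)
        exact norm_eq_zero.mp (pow_eq_zero_iff (two_ne_zero) |>.mp this)
      simp [h2]
    by_cases hη : ∑ j, ‖η j‖ ^ 2 = 0
    · have h2 : ∀ j, η j = 0 := by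
        intro j
        have := (Finset.sum_eq_zero_iff_of_nonneg (fun i _ => by positivity)).mp hη j
          (Finset.mem_univ j)
        exact norm_eq_zero.mp (pow_eq_zero_iff (two_ne_zero) |>.mp this)
      simp [h2]
    have hξ0 : 0 ≤ ∑ j, ‖ξ j‖ ^ 2 := Finset.sum_nonneg fun i _ => by positivity
    have hη0 : 0 ≤ ∑ j, ‖η j‖ ^ 2 := Finset.sum_nonneg fun i _ => by positivity
    have hξ' : 0 < √(∑ j, ‖ξ j‖ ^ 2) := Real.sqrt_pos.mpr (lt_of_le_of_ne hξ0 (Ne.symm hξ))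
    have hη' : 0 < √(∑ j, ‖η j‖ ^ 2) := Real.sqrt_pos.mpr (lt_of_le_of_ne hη0 (Ne.symm hη))
    apply bound_of_forall_nonneg hη' hξ'
    intro s u hs hu
    have h2 := h (fun j => (((s⁻¹ : ℝ) : ℂ) * u) • ξ j) (fun i => (s : ℂ) • η i)
    have e1 : ∑ i, ‖(s : ℂ) • η i‖ ^ 2 = s ^ 2 * √(∑ j, ‖η j‖ ^ 2) ^ 2 := by
      rw [Real.sq_sqrt hη0, Finset.mul_sum]
      refine Finset.sum_congr rfl fun i _ => ?_
      rw [norm_smul, mul_pow, Complex.norm_real, Real.norm_eq_abs, sq_abs]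
    have e2 : ∑ i, ‖(((s⁻¹ : ℝ) : ℂ) * u) • ξ i‖ ^ 2 = s⁻¹ ^ 2 * √(∑ j, ‖ξ j‖ ^ 2) ^ 2 := by
      rw [Real.sq_sqrt hξ0, Finset.mul_sum]
      refine Finset.sum_congr rfl fun i _ => ?_
      rw [norm_smul, norm_mul, hu, mul_one, mul_pow, Complex.norm_real, Real.norm_eq_abs, sq_abs]
    have e3 : ∑ i, ∑ j, ⟪(s : ℂ) • η i, (m i j) ((((s⁻¹ : ℝ) : ℂ) * u) • ξ j)⟫_ℂ =
        u * ∑ i, ∑ j, ⟪η i, (m i j) (ξ j)⟫_ℂ := by
      rw [Finset.mul_sum]
      refine Finset.sum_congr rfl fun i _ => ?_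
      rw [Finset.mul_sum]
      refine Finset.sum_congr rfl fun j _ => ?_
      rw [map_smul, inner_smul_left, inner_smul_right]
      have hs' : (s : ℂ) ≠ 0 := by exact_mod_cast hs.ne'
      rw [Complex.conj_ofReal]
      push_cast
      field_simp
    rw [e1, e2, e3] at h2
    have h3 := (abs_le.mp (Complex.abs_re_le_norm (u * ∑ i, ∑ j, ⟪η i, (m i j) (ξ j)⟫_ℂ))).1
    nlinarith [h2, h3]

end MBsec

section blocks

variable {J : Type*} {K : J → Type*} [∀ j, NormedAddCommGroup (K j)]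
  [∀ j, InnerProductSpace ℂ (K j)] {n : Type*} [Fintype n]

/-- A matrix of block diagonal operators is bounded if all blocks are. -/
theorem mb_blocks (m : n → n → (lp K 2 →L[ℂ] lp K 2)) (m' : ∀ j, n → n → (K j →L[ℂ] K j))
    (hm : ∀ s t x j, m s t x j = m' j s t (x j)) {c : ℝ} (hc : 0 ≤ c)
    (h : ∀ j, MB (m' j) c) : MB m c := by
  rw [mb_iff hc]
  intro ξ η
  have h1 : ∀ s t, HasSum (fun j => ⟪η s j, m' j s t (ξ t j)⟫_ℂ) ⟪η s, m s t (ξ t)⟫_ℂ := by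
    intro s t
    have := lp.hasSum_inner (𝕜 := ℂ) (η s) (m s t (ξ t))
    simpa only [hm] using this
  have h2 : HasSum (fun j => ∑ s, ∑ t, ⟪η s j, m' j s t (ξ t j)⟫_ℂ)
      (∑ s, ∑ t, ⟪η s, m s t (ξ t)⟫_ℂ) :=
    hasSum_sum fun s _ => hasSum_sum fun t _ => h1 s t
  have h3 : ∀ x : lp K 2, HasSum (fun j => ‖x j‖ ^ 2) (‖x‖ ^ 2) := by
    intro x
    have := lp.hasSum_norm (p := 2) (by norm_num) x
    simpa using this
  have h4 : HasSum (fun j => c * (∑ t, ‖ξ t j‖ ^ 2) + c * (∑ s, ‖η s j‖ ^ 2))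
      (c * (∑ t, ‖ξ t‖ ^ 2) + c * (∑ s, ‖η s‖ ^ 2)) :=
    ((hasSum_sum fun t _ => h3 (ξ t)).mul_left c).add
      ((hasSum_sum fun s _ => h3 (η s)).mul_left c)
  have h5 : ∀ j, ‖∑ s, ∑ t, ⟪η s j, m' j s t (ξ t j)⟫_ℂ‖ ≤
      (1 / 2) * (c * (∑ t, ‖ξ t j‖ ^ 2) + c * (∑ s, ‖η s j‖ ^ 2)) := by
    intro j
    have := (mb_iff hc).mp (h j) (fun t => ξ t j) (fun s => η s j)
    linarith
  have h6 := tsum_of_norm_bounded (h4.mul_left (1 / 2)) h5
  rw [h2.tsum_eq] at h6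
  linarith

end blocks

end Pool.Agent.NormEnv
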